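import Pool.Agent.Lib.MP_b07157_agE.EMain
import Pool.Agent.Lib.MP_b07157_agQ.HomDvd
import Pool.Agent.Lib.MP_b07157_agQ.L2a
import Pool.Agent.Lib.MP_b07157_agSC.OrdB

/-!
# Integrability and changes of coordinates; cubic forms with a square factor
-/

noncomputable section

namespace MPb07157

open MvPolynomial MeasureTheory Metric

namespace LC

variable {n : ℕ}

/-- The linear substitution. -/
abbrev subM (M : Matrix (Fin n) (Fin n) ℂ) : Fin n → MvPolynomial (Fin n) ℂ :=
  fun i => ∑ j, C (M i j) * X j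

theorem eval_subM (M : Matrix (Fin n) (Fin n) ℂ) (w : Fin n → ℂ) (G : MvPolynomial (Fin n) ℂ) :
    eval w (aeval (subM M) G) = eval (M.mulVec w) G := by
  have h1 : ((aeval w : MvPolynomial (Fin n) ℂ →ₐ[ℂ] ℂ).comp (aeval (subM M))) G =
      aeval (fun b => aeval w (subM M b)) G := by
    rw [comp_aeval]
  have h2 : (fun b => aeval w (subM M b)) = M.mulVec w := by
    funext b
    show aeval w (∑ i, C (M b i) * X i : MvPolynomial (Fin n) ℂ) = _
    rw [map_sum]
    show _ = ∑ i, M b i * w i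
    refine Finset.sum_congr rfl fun i _ => ?_
    rw [map_mul, aeval_C, aeval_X]
    rfl
  rw [h2] at h1
  exact h1

theorem eval_translate' (p x : Fin n → ℂ) (f : MvPolynomial (Fin n) ℂ) :
    eval x (translate p f) = eval (x + p) f := by
  unfold translate
  induction f using MvPolynomial.induction_on with
  | C a => simp
  | add a b ha hb => simp only [map_add, ha, hb]
  | mul_X a i ha =>
    rw [map_mul, map_mul, ha, map_mul]
    congr 1
    simp

/-- Translation. -/
theorem integrableOn_translate {f : MvPolynomial (Fin n) ℂ} {p : Fin n → ℂ} {s r : ℝ}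
    (h : IntegrableOn (fun x => ‖eval x f‖ ^ s) (ball p r)) :
    IntegrableOn (fun x => ‖eval x (translate p f)‖ ^ s) (ball 0 r) := by
  have hmp : MeasurePreserving (fun x : Fin n → ℂ => x + p) volume volume :=
    measurePreserving_add_right volume p
  have hemb : MeasurableEmbedding (fun x : Fin n → ℂ => x + p) := measurableEmbedding_addRight p
  have h1 := (hmp.integrableOn_comp_preimage hemb (f := fun x => ‖eval x f‖ ^ s)
    (s := ball p r)).2 h
  have h2 : (fun x : Fin n → ℂ => x + p) ⁻¹' ball p r = ball 0 r := by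
    ext x
    rw [Set.mem_preimage, mem_ball, mem_ball, dist_eq_norm, dist_eq_norm, add_sub_cancel_right,
      sub_zero]
  rw [h2] at h1
  refine h1.congr_fun (fun x _ => ?_) measurableSet_ball
  show ‖eval (x + p) f‖ ^ s = _
  rw [eval_translate']

/-- Linear changes of coordinates. -/
theorem integrableOn_lin {F : MvPolynomial (Fin n) ℂ} {M : Matrix (Fin n) (Fin n) ℂ}
    (hM : M.det ≠ 0) {s r : ℝ} (hr : 0 < r)
    (h : IntegrableOn (fun x => ‖eval x F‖ ^ s) (ball 0 r)) :
    ∃ r' : ℝ, 0 < r' ∧ IntegrableOn (fun x => ‖eval x (aeval (subM M) F)‖ ^ s) (ball 0 r') := by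
  have hu : IsUnit M.det := isUnit_iff_ne_zero.2 hM
  let e : (Fin n → ℂ) ≃ₗ[ℝ] (Fin n → ℂ) :=
    (Matrix.toLin'OfInv (Matrix.nonsing_inv_mul _ hu) (Matrix.mul_nonsing_inv _ hu)).restrictScalars
      ℝ
  have he : ∀ x, e x = M.mulVec x := fun x => by
    show Matrix.toLin' M x = _
    rw [Matrix.toLin'_apply]
  have hdet : LinearMap.det (e : (Fin n → ℂ) →ₗ[ℝ] (Fin n → ℂ)) ≠ 0 :=
    (LinearEquiv.isUnit_det' e).ne_zero
  have hmap := Measure.map_linearMap_addHaar_eq_smul_addHaar
    (volume : Measure (Fin n → ℂ)) hdet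
  have hcont : Continuous e := e.toContinuousLinearEquiv.continuous
  have hemb : MeasurableEmbedding e :=
    e.toContinuousLinearEquiv.toHomeomorph.measurableEmbedding
  have h1 : IntegrableOn (fun x => ‖eval x F‖ ^ s) (ball 0 r)
      (Measure.map e (volume : Measure (Fin n → ℂ))) := by
    have h2 : Measure.map e (volume : Measure (Fin n → ℂ)) =
        ENNReal.ofReal |(LinearMap.det (e : (Fin n → ℂ) →ₗ[ℝ] (Fin n → ℂ)))⁻¹| • volume := hmap
    rw [h2]
    unfold IntegrableOn
    rw [Measure.restrict_smul]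
    exact Integrable.smul_measure h ENNReal.ofReal_ne_top
  have h2 : IntegrableOn ((fun x => ‖eval x F‖ ^ s) ∘ e) (e ⁻¹' ball 0 r) volume :=
    (hemb.integrableOn_map_iff).1 h1
  have h3 : e ⁻¹' ball 0 r ∈ nhds (0 : Fin n → ℂ) := by
    refine (isOpen_ball.preimage hcont).mem_nhds ?_
    rw [Set.mem_preimage, map_zero]
    exact mem_ball_self hr
  obtain ⟨r', hr', hsub⟩ := Metric.mem_nhds_iff.1 h3
  refine ⟨r', hr', (h2.mono_set hsub).congr_fun (fun x _ => ?_) measurableSet_ball⟩
  show ‖eval (e x) F‖ ^ s = _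
  rw [eval_subM, he]

/-- A cubic form which is not squarefree is zero or has a square factor. -/
theorem exists_square {c : MvPolynomial (Fin n) ℂ} (hc : c.IsHomogeneous 3)
    (hns : ¬ Squarefree c) : c = 0 ∨ ∃ l m : MvPolynomial (Fin n) ℂ, l.IsHomogeneous 1 ∧ l ≠ 0 ∧
      m.IsHomogeneous 1 ∧ c = l ^ 2 * m := by
  by_cases h0 : c = 0
  · exact Or.inl h0
  right
  unfold Squarefree at hns
  push Not at hns
  obtain ⟨x, ⟨y, hy⟩, hx⟩ := hns
  have hx0 : x ≠ 0 := by
    rintro rfl
    rw [zero_mul, zero_mul] at hy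
    exact h0 hy
  have hy0 : y ≠ 0 := by
    rintro rfl
    rw [mul_zero] at hy
    exact h0 hy
  obtain ⟨a, ha⟩ := isHomogeneous_of_dvd hc h0 ⟨x * y, by rw [hy]; ring⟩
    (f := x)
  obtain ⟨b, hb⟩ := isHomogeneous_of_dvd hc h0 ⟨x * x, by rw [hy]; ring⟩
    (f := y)
  have h1 : a + a + b = 3 := by
    have h2 := (ha.mul ha).mul hb
    rw [← hy] at h2
    exact (h2.inj_right hc h0)
  have ha0 : a ≠ 0 := by
    rintro rfl
    apply hx
    have h2 := (totalDegree_zero_iff_isHomogeneous (p := x)).2 ha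
    rw [totalDegree_eq_zero_iff_eq_C] at h2
    rw [h2]
    refine (IsUnit.mk0 _ fun h3 => hx0 ?_).map C
    rw [h2, h3, map_zero]
  obtain rfl : a = 1 := by omega
  obtain rfl : b = 1 := by omega
  exact ⟨x, y, ha, hx0, hb, by rw [hy]; ring⟩

/-- A non-zero linear form is a coordinate. -/
theorem exists_coordM {l : MvPolynomial (Fin (n + 1)) ℂ} (hl : l.IsHomogeneous 1) (hl0 : l ≠ 0) :
    ∃ M : Matrix (Fin (n + 1)) (Fin (n + 1)) ℂ, M.det ≠ 0 ∧ aeval (subM M) l = X 0 := by
  classical
  have hev : ∀ z, eval z l = ∑ i, coeff (Finsupp.single i 1) l * z i :=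
    fun z => OR.eval_of_isHomogeneous_one hl z
  obtain ⟨i₀, hi₀⟩ : ∃ i, coeff (Finsupp.single i 1) l ≠ 0 := by
    by_contra hcon
    push Not at hcon
    apply hl0
    refine MvPolynomial.funext fun z => ?_
    rw [hev, map_zero]
    exact Finset.sum_eq_zero fun i _ => by rw [hcon, zero_mul]
  let σ : Equiv.Perm (Fin (n + 1)) := Equiv.swap 0 i₀
  let N : Matrix (Fin (n + 1)) (Fin (n + 1)) ℂ := Matrix.of fun k j =>
    if k = 0 then coeff (Finsupp.single j 1) l else if σ k = j then 1 else 0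
  have hN : N.det ≠ 0 := by
    intro h0
    obtain ⟨z, hz0, hz⟩ := Matrix.exists_mulVec_eq_zero_iff.2 h0
    have h1 : ∀ k, k ≠ 0 → z (σ k) = 0 := by
      intro k hk
      have h2 := congrFun hz k
      have h3 : ∑ j, (if σ k = j then (1 : ℂ) else 0) * z j = 0 := by
        refine Eq.trans ?_ h2
        show _ = ∑ j, N k j * z j
        refine Finset.sum_congr rfl fun j _ => ?_
        have h5 : N k j = if σ k = j then (1 : ℂ) else 0 := if_neg hk
        rw [h5]
      simpa using h3
    have h2 : ∀ j, j ≠ i₀ → z j = 0 := by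
      intro j hj
      have h3 := h1 (σ j) (fun h => hj (by
        have h4 := congrArg σ h
        rw [Equiv.swap_apply_self, Equiv.swap_apply_left] at h4
        exact h4))
      rwa [Equiv.swap_apply_self] at h3
    have h3 := congrFun hz 0
    have h4 : ∑ j, coeff (Finsupp.single j 1) l * z j = 0 := h3
    rw [Finset.sum_eq_single i₀ (fun j _ hj => by rw [h2 j hj, mul_zero])
      (fun h => absurd (Finset.mem_univ _) h)] at h4
    apply hz0
    funext j
    by_cases hj : j = i₀
    · rw [hj]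
      exact (mul_eq_zero.1 h4).resolve_left hi₀
    · exact h2 j hj
  have hu : IsUnit N.det := isUnit_iff_ne_zero.2 hN
  refine ⟨N⁻¹, ?_, ?_⟩
  · rw [Matrix.det_nonsing_inv]
    exact (isUnit_ringInverse.2 hu).ne_zero
  · refine MvPolynomial.funext fun w => ?_
    rw [eval_subM, eval_X, hev]
    have h1 : N.mulVec ((N⁻¹).mulVec w) = w := by
      rw [Matrix.mulVec_mulVec, Matrix.mul_nonsing_inv _ hu, Matrix.one_mulVec]
    have h2 := congrFun h1 0
    rw [← h2]
    rfl

end LC

end MPb07157
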