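import Pool.Agent.Lib.MP_b07157_agLC.Lin
import Pool.Agent.Lib.MP_b07157_agYW.LctW
import Pool.Agent.Lib.MP_b07157_agSE.MtD

/-!
# Surfaces: the critical zeros which are neither double points nor triple points with reduced
tangent cone have log canonical threshold at most `7/8`
-/

noncomputable section

namespace MPb07157

open MvPolynomial MeasureTheory Metric

namespace LC

/-- A linear change of coordinates of the homogeneous components. -/
theorem homogeneousComponent_subM {n : ℕ} (M : Matrix (Fin n) (Fin n) ℂ) (F : MvPolynomial (Fin n) ℂ)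
    (j : ℕ) : homogeneousComponent j (aeval (subM M) F) =
      aeval (subM M) (homogeneousComponent j F) := by
  classical
  have hM : ∀ i, (subM M i).IsHomogeneous 1 := fun i =>
    IsHomogeneous.sum _ _ _ fun j _ => (isHomogeneous_X _ j).C_mul _
  have h1 : ∀ i, (aeval (subM M) (homogeneousComponent i F)).IsHomogeneous i := by
    intro i
    have h2 := (homogeneousComponent_isHomogeneous i F).aeval (subM M) hM
    rwa [one_mul] at h2
  conv_lhs => rw [← sum_homogeneousComponent F, map_sum, map_sum]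
  rw [Finset.sum_eq_single j]
  · rw [homogeneousComponent_of_mem (h1 j), if_pos rfl]
  · intro i _ hi
    rw [homogeneousComponent_of_mem (h1 i), if_neg (Ne.symm hi)]
  · intro h
    rw [Finset.mem_range, not_lt] at h
    rw [homogeneousComponent_eq_zero j F (by omega), map_zero, map_zero]

/-- The weights `(3, 2, 2)`. -/
theorem weight_le {G : MvPolynomial (Fin 3) ℂ} (low : ∀ j < 3, homogeneousComponent j G = 0)
    (h3 : homogeneousComponent 3 G = 0 ∨ ∃ m : MvPolynomial (Fin 3) ℂ, m.IsHomogeneous 1 ∧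
      homogeneousComponent 3 G = X 0 ^ 2 * m) :
    ∀ v ∈ G.support, 8 ≤ MPb07157.wt ![3, 2, 2] v := by
  classical
  intro v hv
  have hc : ∀ j, v.degree = j → homogeneousComponent j G ≠ 0 := by
    intro j hj h0
    have h1 := congrArg (coeff v) h0
    rw [coeff_homogeneousComponent, if_pos hj, coeff_zero] at h1
    exact (mem_support_iff.1 hv) h1
  have hwt : MPb07157.wt ![3, 2, 2] v = 3 * v 0 + 2 * v 1 + 2 * v 2 := by
    unfold MPb07157.wt
    rw [Fin.sum_univ_three]
    rfl
  have hdeg : v.degree = v 0 + v 1 + v 2 := by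
    rw [Finsupp.degree_eq_sum, Fin.sum_univ_three]
  rw [hwt]
  have hge : 3 ≤ v.degree := by
    by_contra hlt
    push Not at hlt
    exact hc _ rfl (low _ hlt)
  by_cases h4 : 4 ≤ v.degree
  · omega
  have hd3 : v.degree = 3 := by omega
  rcases h3 with h3 | ⟨m, _, hm⟩
  · exact absurd h3 (hc 3 hd3)
  have h5 : 2 ≤ v 0 := by
    have h6 : coeff v (homogeneousComponent 3 G) ≠ 0 := by
      rw [coeff_homogeneousComponent, if_pos hd3]
      exact mem_support_iff.1 hv
    rw [hm, X_pow_eq_monomial, coeff_monomial_mul'] at h6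
    by_contra hlt
    apply h6
    rw [if_neg]
    intro hle
    have h7 := Finsupp.single_le_iff.1 hle
    omega
  omega

/-- **The log canonical threshold is at most `7/8`** at the critical zeros which are neither double
points nor triple points with reduced tangent cone. -/
theorem not_integrable_three {f : MvPolynomial (Fin 3) ℂ} (hf : f ≠ 0) {p : Fin 3 → ℂ}
    (h0 : eval p f = 0) (h1 : ∀ i, eval p (pderiv i f) = 0) (h2 : YG.hessAt f p = 0)
    (h3 : ¬ Squarefree (homogeneousComponent 3 (translate p f))) {r : ℝ} (hr : 0 < r) :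
    ¬ IntegrableOn (fun x => ‖eval x f‖ ^ (-(2 * (7 / 8 : ℝ)))) (Metric.ball p r) volume := by
  classical
  intro hint
  have hlow : ∀ o, constantCoeff (SE3.gen (translate p f) o) = 0 := by
    intro o
    rw [SE3.gen_translate, ← MB.eval_eq_constantCoeff]
    rcases o with _ | i | ⟨i, j⟩
    · exact h0
    · exact h1 i
    · exact congrFun (congrFun h2 i) j
  have low := SE3.low_of_gen hlow
  have hF := integrableOn_translate hint
  obtain ⟨F, hFd⟩ : ∃ F, F = translate p f := ⟨_, rfl⟩
  rw [← hFd] at low hF h3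
  have hF0 : F ≠ 0 := by
    rw [hFd]
    exact translate_ne_zero hf p
  -- good coordinates
  obtain ⟨M, hM, hM3⟩ : ∃ M : Matrix (Fin 3) (Fin 3) ℂ, M.det ≠ 0 ∧
      (homogeneousComponent 3 (aeval (subM M) F) = 0 ∨ ∃ m : MvPolynomial (Fin 3) ℂ,
        m.IsHomogeneous 1 ∧ homogeneousComponent 3 (aeval (subM M) F) = X 0 ^ 2 * m) := by
    rcases exists_square (homogeneousComponent_isHomogeneous 3 F) h3 with h4 | ⟨l, m, hl, hl0, hm, h4⟩
    · refine ⟨1, by rw [Matrix.det_one]; exact one_ne_zero, Or.inl ?_⟩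
      rw [homogeneousComponent_subM, h4, map_zero]
    · obtain ⟨M, hM, hMl⟩ := exists_coordM (n := 2) hl hl0
      refine ⟨M, hM, Or.inr ⟨aeval (subM M) m, ?_, ?_⟩⟩
      · have h5 := hm.aeval (subM M) (n := 1) fun i =>
          IsHomogeneous.sum _ _ _ fun j _ => (isHomogeneous_X _ j).C_mul _
        rwa [one_mul] at h5
      · rw [homogeneousComponent_subM, h4, map_mul, map_pow, hMl]
  obtain ⟨r', hr', hG⟩ := integrableOn_lin hM hr hF
  obtain ⟨G, hGd⟩ : ∃ G, G = aeval (subM M) F := ⟨_, rfl⟩
  rw [← hGd] at hM3 hG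
  have hG0 : G ≠ 0 := by
    intro hG0
    apply hF0
    refine MvPolynomial.funext fun w => ?_
    have hu : IsUnit M.det := isUnit_iff_ne_zero.2 hM
    have h5 : M.mulVec ((M⁻¹).mulVec w) = w := by
      rw [Matrix.mulVec_mulVec, Matrix.mul_nonsing_inv _ hu, Matrix.one_mulVec]
    rw [map_zero, ← h5, ← eval_subM, ← hGd, hG0, map_zero]
  have hGlow : ∀ j < 3, homogeneousComponent j G = 0 := by
    intro j hj
    rw [hGd, homogeneousComponent_subM, low j hj, map_zero]
  have h6 := Lct.not_integrableOn_of_lowW (f := G) (a := ![3, 2, 2]) (D := 8)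
    (by intro i; fin_cases i <;> decide) (by norm_num) (by norm_num) hG0
    (weight_le hGlow hM3) hr'
  apply h6
  refine hG.congr_fun (fun x _ => ?_) measurableSet_ball
  have h7 : (∑ i, (![3, 2, 2] : Fin 3 → ℕ) i) = 7 := by decide
  show ‖eval x G‖ ^ (-(2 * (7 / 8 : ℝ))) = Lct.NN G x ^ _
  rw [h7]
  unfold Lct.NN
  rw [Complex.normSq_eq_norm_sq, ← Real.rpow_natCast, ← Real.rpow_mul (norm_nonneg _)]
  congr 1
  push_cast
  ring

end LC

end MPb07157
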