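import Pool.Agent.Lib.MP_b07157_agLC.T

/-!
# Cones in four variables: the critical points outside the origin which are neither double points
nor triple points with reduced tangent cone have log canonical threshold at most `7/8`
-/

noncomputable section

namespace MPb07157

open MvPolynomial MeasureTheory Metric

namespace LC

variable {n : ℕ}

theorem t4_coeff_X_mul_pderiv (i : Fin n) (G : MvPolynomial (Fin n) ℂ) (v : Fin n →₀ ℕ) :
    coeff v (X i * pderiv i G) = v i * coeff v G := by
  classical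
  rw [coeff_X_mul']
  split_ifs with h
  · have hv : 1 ≤ v i := Nat.one_le_iff_ne_zero.2 (Finsupp.mem_support_iff.1 h)
    rw [coeff_pderiv, tsub_add_cancel_of_le (Finsupp.single_le_iff.2 hv)]
    rw [Finsupp.tsub_apply, Finsupp.single_eq_same, Nat.cast_sub hv]
    push_cast
    ring
  · rw [Finsupp.notMem_support_iff.1 h]
    simp

/-- Euler's identity at a translate. -/
theorem t4_euler {H : MvPolynomial (Fin n) ℂ} {d : ℕ} (hH : H.IsHomogeneous d)
    (q : Fin n → ℂ) (v : Fin n →₀ ℕ) :
    ∑ i, q i * (coeff (v + Finsupp.single i 1) (translate q H) * (v i + 1)) =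
      ((d : ℂ) - v.degree) * coeff v (translate q H) := by
  have h2 : ∑ i, (X i + C (q i)) * pderiv i (translate q H) = d • translate q H := by
    have h1 := congrArg (aeval (fun i => X i + C (q i)) :
      MvPolynomial (Fin n) ℂ →ₐ[ℂ] MvPolynomial (Fin n) ℂ) hH.sum_X_mul_pderiv
    rw [map_sum, map_nsmul] at h1
    refine Eq.trans (Finset.sum_congr rfl fun i _ => ?_) h1
    rw [pderiv_translate, map_mul, aeval_X]
    rfl
  have h3 := congrArg (coeff v) h2
  have h4 : ∀ i, coeff v ((X i + C (q i)) * pderiv i (translate q H)) =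
      v i * coeff v (translate q H) +
        q i * (coeff (v + Finsupp.single i 1) (translate q H) * (v i + 1)) := by
    intro i
    rw [add_mul, coeff_add, t4_coeff_X_mul_pderiv, coeff_C_mul, coeff_pderiv]
  rw [coeff_sum, Finset.sum_congr rfl fun i _ => h4 i, Finset.sum_add_distrib, ← Finset.sum_mul,
    coeff_smul, nsmul_eq_mul] at h3
  have h5 : ∑ i, (v i : ℂ) = v.degree := by
    rw [Finsupp.degree_eq_sum]
    push_cast
    rfl
  rw [h5] at h3
  linear_combination h3

/-- The support of a translate of a form by a basis vector. -/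
theorem t4_erase_mem {H : MvPolynomial (Fin n) ℂ} {d : ℕ} (hH : H.IsHomogeneous d) (k : Fin n)
    {v : Fin n →₀ ℕ} (hv : v ∈ (translate (Pi.single k 1) H).support) :
    v.erase k ∈ (translate (Pi.single k 1) H).support := by
  classical
  have hG : ∀ v, coeff v (translate (Pi.single k 1) H) = 0 →
      coeff (v + Finsupp.single k 1) (translate (Pi.single k 1) H) = 0 := by
    intro v hv
    have h1 := t4_euler hH (Pi.single k 1) v
    rw [hv, mul_zero, Finset.sum_eq_single k, Pi.single_eq_same, one_mul] at h1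
    · refine (mul_eq_zero.1 h1).resolve_right ?_
      exact_mod_cast Nat.succ_ne_zero (v k)
    · intro j _ hj
      rw [Pi.single_eq_of_ne hj, zero_mul]
    · intro h
      exact absurd (Finset.mem_univ _) h
  rw [mem_support_iff] at hv ⊢
  intro h0
  apply hv
  have h2 : ∀ m, coeff (v.erase k + Finsupp.single k m) (translate (Pi.single k 1) H) = 0 := by
    intro m
    induction m with
    | zero => simpa using h0
    | succ m ih =>
      rw [Finsupp.single_add, ← add_assoc]
      exact hG _ ih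
  have h1 := h2 (v k)
  rwa [Finsupp.erase_add_single] at h1

/-- The cubic part at a triple point `p` of a cone is invariant in the direction `p`. -/
theorem t4_dir {f : MvPolynomial (Fin n) ℂ} {d : ℕ} (hh : f.IsHomogeneous d) {p : Fin n → ℂ}
    (low : ∀ j < 3, homogeneousComponent j (translate p f) = 0) :
    ∑ i, C (p i) * pderiv i (homogeneousComponent 3 (translate p f)) = 0 := by
  classical
  ext v
  rw [coeff_sum, coeff_zero]
  have h1 : ∀ i, coeff v (C (p i) * pderiv i (homogeneousComponent 3 (translate p f))) =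
      p i * (coeff (v + Finsupp.single i 1) (homogeneousComponent 3 (translate p f)) *
        (v i + 1)) := by
    intro i
    rw [coeff_C_mul, coeff_pderiv]
  rw [Finset.sum_congr rfl fun i _ => h1 i]
  have hdeg : ∀ i : Fin n, (v + Finsupp.single i 1).degree = v.degree + 1 := by
    intro i
    rw [map_add, Finsupp.degree_single]
  by_cases hv : v.degree = 2
  · have h2 := t4_euler hh p v
    have h3 : coeff v (translate p f) = 0 := by
      have h4 := congrArg (coeff v) (low 2 (by norm_num))
      rwa [coeff_homogeneousComponent, if_pos hv, coeff_zero] at h4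
    rw [h3, mul_zero] at h2
    rw [← h2]
    refine Finset.sum_congr rfl fun i _ => ?_
    rw [coeff_homogeneousComponent, if_pos (by rw [hdeg, hv])]
  · refine Finset.sum_eq_zero fun i _ => ?_
    rw [coeff_homogeneousComponent, if_neg (by rw [hdeg]; omega), zero_mul, mul_zero]

/-- The directional derivative of a linear form. -/
theorem t4_dir_lin {l : MvPolynomial (Fin n) ℂ} (hl : l.IsHomogeneous 1) (p : Fin n → ℂ) :
    ∑ i, C (p i) * pderiv i l = C (eval p l) := by
  classical
  have h1 : ∀ i, pderiv i l = C (coeff (Finsupp.single i 1) l) := by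
    intro i
    ext v
    rw [coeff_pderiv, coeff_C]
    by_cases hv : v = 0
    · subst hv
      simp
    · rw [if_neg (Ne.symm hv)]
      have h2 : coeff (v + Finsupp.single i 1) l = 0 := by
        refine hl.coeff_eq_zero ?_
        rw [map_add, Finsupp.degree_single]
        intro h3
        apply hv
        rw [← Finsupp.degree_eq_zero_iff]
        omega
      rw [h2, zero_mul]
  rw [OR.eval_of_isHomogeneous_one hl p, map_sum]
  refine Finset.sum_congr rfl fun i _ => ?_
  rw [h1, ← map_mul, mul_comm]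

/-- The double linear factor vanishes at `p`. -/
theorem t4_exists_l {c : MvPolynomial (Fin (n + 2)) ℂ} (hc : c.IsHomogeneous 3)
    (hns : ¬ Squarefree c) {p : Fin (n + 2) → ℂ} (hD : ∑ i, C (p i) * pderiv i c = 0) :
    ∃ l m : MvPolynomial (Fin (n + 2)) ℂ, l.IsHomogeneous 1 ∧ l ≠ 0 ∧ eval p l = 0 ∧
      c = l ^ 2 * m := by
  by_cases hc0 : c = 0
  · by_cases hp0 : p 0 = 0
    · exact ⟨X 0, 0, isHomogeneous_X _ _, X_ne_zero _, by rw [eval_X, hp0], by rw [hc0, mul_zero]⟩
    · refine ⟨C (p 1) * X 0 - C (p 0) * X 1, 0, ?_, ?_, ?_, by rw [hc0, mul_zero]⟩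
      · exact ((isHomogeneous_X _ _).C_mul _).sub ((isHomogeneous_X _ _).C_mul _)
      · intro h
        have h1 := congrArg (eval (Pi.single 1 1 : Fin (n + 2) → ℂ)) h
        simp at h1
        exact hp0 h1
      · simp
        ring
  · rcases exists_square hc hns with h | ⟨l, m, hl, hl0, hm, h⟩
    · exact absurd h hc0
    refine ⟨l, m, hl, hl0, ?_, h⟩
    have hm0 : m ≠ 0 := by
      rintro rfl
      exact hc0 (by rw [h, mul_zero])
    have h1 : ∑ i, C (p i) * pderiv i c =
        2 * l * m * (∑ i, C (p i) * pderiv i l) + l ^ 2 * ∑ i, C (p i) * pderiv i m := by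
      rw [Finset.mul_sum, Finset.mul_sum, ← Finset.sum_add_distrib]
      refine Finset.sum_congr rfl fun i _ => ?_
      rw [h, pderiv_mul, pderiv_pow]
      push_cast
      ring
    rw [hD, t4_dir_lin hl, t4_dir_lin hm] at h1
    have h2 : l * (2 * m * C (eval p l) + l * C (eval p m)) = 0 := by
      linear_combination -h1
    have h3 := (mul_eq_zero.1 h2).resolve_left hl0
    have h4 := congrArg (eval p) h3
    simp only [map_add, map_mul, eval_C, map_zero, map_ofNat] at h4
    have h5 : eval p l * eval p m = 0 := by linear_combination (1 / 3 : ℂ) * h4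
    rcases mul_eq_zero.1 h5 with h6 | h6
    · exact h6
    · rw [h6, map_zero, mul_zero, add_zero] at h3
      rcases mul_eq_zero.1 h3 with h7 | h7
      · rcases mul_eq_zero.1 h7 with h8 | h8
        · exfalso
          have h9 := congrArg (eval p) h8
          simp at h9
        · exact absurd h8 hm0
      · exact (C_eq_zero.1 h7)

/-- Coordinates in which `p` is a basis vector and `l` is the first coordinate. -/
theorem t4_exists_M {l : MvPolynomial (Fin (n + 1)) ℂ} (hl : l.IsHomogeneous 1) (hl0 : l ≠ 0)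
    {p : Fin (n + 1) → ℂ} (hp : p ≠ 0) (hlp : eval p l = 0) :
    ∃ (M : Matrix (Fin (n + 1)) (Fin (n + 1)) ℂ) (k : Fin (n + 1)), M.det ≠ 0 ∧ k ≠ 0 ∧
      M.mulVec (Pi.single k 1) = p ∧ aeval (subM M) l = X 0 := by
  classical
  obtain ⟨A, hA, hAl⟩ := exists_coordM hl hl0
  have hu : IsUnit A.det := isUnit_iff_ne_zero.2 hA
  obtain ⟨q, hq⟩ : ∃ q, q = (A⁻¹).mulVec p := ⟨_, rfl⟩
  have hAq : A.mulVec q = p := by
    rw [hq, Matrix.mulVec_mulVec, Matrix.mul_nonsing_inv _ hu, Matrix.one_mulVec]
  have hq0 : q 0 = 0 := by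
    have h1 := eval_subM A q l
    rw [hAl, eval_X, hAq, hlp] at h1
    exact h1
  obtain ⟨k, hk⟩ : ∃ k, q k ≠ 0 := by
    by_contra hcon
    push Not at hcon
    apply hp
    rw [← hAq]
    have : q = 0 := funext hcon
    rw [this, Matrix.mulVec_zero]
  have hk0 : k ≠ 0 := by
    rintro rfl
    exact hk hq0
  let B : Matrix (Fin (n + 1)) (Fin (n + 1)) ℂ := (1 : Matrix _ _ ℂ).updateCol k q
  have hB : ∀ w, B.mulVec w = w + w k • (q - Pi.single k 1) := by
    intro w
    have h1 : B = 1 + Matrix.vecMulVec (q - Pi.single k 1) (Pi.single k 1) := by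
      ext i j
      show (1 : Matrix _ _ ℂ).updateCol k q i j = _
      rw [Matrix.updateCol_apply, Matrix.add_apply, Matrix.vecMulVec_apply, Pi.sub_apply]
      by_cases hj : j = k
      · subst hj
        rw [if_pos rfl, Pi.single_eq_same, mul_one]
        by_cases hi : i = j
        · subst hi
          rw [Pi.single_eq_same, Matrix.one_apply_eq]
          ring
        · rw [Pi.single_eq_of_ne hi, Matrix.one_apply_ne hi]
          ring
      · rw [if_neg hj, Pi.single_eq_of_ne hj, mul_zero, add_zero]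
    rw [h1, Matrix.add_mulVec, Matrix.one_mulVec, Matrix.vecMulVec_mulVec]
    congr 1
    simp
  have hBdet : B.det ≠ 0 := by
    intro h0
    obtain ⟨z, hz0, hz⟩ := Matrix.exists_mulVec_eq_zero_iff.2 h0
    rw [hB] at hz
    have h1 := congrFun hz k
    simp only [Pi.add_apply, Pi.smul_apply, Pi.sub_apply, Pi.single_eq_same, smul_eq_mul,
      Pi.zero_apply] at h1
    have h2 : z k * q k = 0 := by linear_combination h1
    have h3 := (mul_eq_zero.1 h2).resolve_right hk
    rw [h3, zero_smul, add_zero] at hz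
    exact hz0 hz
  refine ⟨A * B, k, ?_, hk0, ?_, ?_⟩
  · rw [Matrix.det_mul]
    exact mul_ne_zero hA hBdet
  · rw [← Matrix.mulVec_mulVec, hB, Pi.single_eq_same, one_smul, add_sub_cancel, hAq]
  · refine MvPolynomial.funext fun w => ?_
    rw [eval_subM, ← Matrix.mulVec_mulVec, ← eval_subM, hAl, eval_X, eval_X, hB]
    simp only [Pi.add_apply, Pi.smul_apply, Pi.sub_apply, smul_eq_mul, hq0,
      Pi.single_eq_of_ne (Ne.symm hk0)]
    ring

/-- The weights. -/
theorem t4_weight {H : MvPolynomial (Fin 4) ℂ} {d : ℕ} (hH : H.IsHomogeneous d) {k : Fin 4}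
    (hk : k ≠ 0) (low : ∀ j < 3, homogeneousComponent j (translate (Pi.single k 1) H) = 0)
    {m : MvPolynomial (Fin 4) ℂ}
    (h3 : homogeneousComponent 3 (translate (Pi.single k 1) H) = X 0 ^ 2 * m) :
    ∀ v ∈ (translate (Pi.single k 1) H).support,
      8 ≤ ∑ j, (if j = k then 0 else if j = 0 then 3 else 2) * v j := by
  classical
  intro v hv
  obtain ⟨G, hGd⟩ : ∃ G, G = translate (Pi.single k 1) H := ⟨_, rfl⟩
  have hu := t4_erase_mem hH k hv
  rw [← hGd] at hu low h3
  obtain ⟨u, hud⟩ : ∃ u, u = v.erase k := ⟨_, rfl⟩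
  rw [← hud] at hu
  have hsum : ∑ j, (if j = k then 0 else if j = 0 then 3 else 2) * v j =
      2 * u.degree + u 0 := by
    have h4 : u 0 = v 0 := by rw [hud, Finsupp.erase_ne (Ne.symm hk)]
    have h5 : ∀ j, j ≠ k → u j = v j := fun j hj => by rw [hud, Finsupp.erase_ne hj]
    have h6 : u k = 0 := by rw [hud, Finsupp.erase_same]
    rw [Finsupp.degree_eq_sum, Finset.mul_sum]
    have h7 : ∀ j, (if j = k then 0 else if j = 0 then 3 else 2) * v j =
        2 * u j + if j = 0 then u 0 else 0 := by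
      intro j
      by_cases hj : j = k
      · subst hj
        rw [if_pos rfl, if_neg hk, h6, zero_mul]
        norm_num
      · rw [if_neg hj, h5 j hj]
        by_cases hj0 : j = 0
        · subst hj0
          rw [if_pos rfl, if_pos rfl, h4]
          ring
        · rw [if_neg hj0, if_neg hj0, add_zero]
    rw [Finset.sum_congr rfl fun j _ => h7 j, Finset.sum_add_distrib, Finset.sum_ite_eq',
      if_pos (Finset.mem_univ _)]
  rw [hsum]
  have hc : ∀ j, u.degree = j → homogeneousComponent j G ≠ 0 := by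
    intro j hj h0
    have h1 := congrArg (coeff u) h0
    rw [coeff_homogeneousComponent, if_pos hj, coeff_zero] at h1
    exact (mem_support_iff.1 hu) h1
  have hge : 3 ≤ u.degree := by
    by_contra hlt
    push Not at hlt
    exact hc _ rfl (low _ hlt)
  by_cases h4 : 4 ≤ u.degree
  · omega
  have hd3 : u.degree = 3 := by omega
  have h5 : 2 ≤ u 0 := by
    have h6 : coeff u (homogeneousComponent 3 G) ≠ 0 := by
      rw [coeff_homogeneousComponent, if_pos hd3]
      exact mem_support_iff.1 hu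
    rw [h3, X_pow_eq_monomial, coeff_monomial_mul'] at h6
    by_contra hlt
    apply h6
    rw [if_neg]
    intro hle
    have h7 := Finsupp.single_le_iff.1 hle
    omega
  omega

theorem t4_sum : ∀ k : Fin 4, k ≠ 0 →
    ∑ j : Fin 4, (if j = k then 0 else if j = 0 then 3 else 2) = 7 := by
  decide

/-- The polydisc `|x_i| < 2^(-b - a_i j)`. -/
def t4U (a : Fin n → ℕ) (b j : ℕ) : Set (Fin n → ℂ) :=
  Set.univ.pi fun i => Metric.ball (0 : ℂ) ((1 / 2 : ℝ) ^ (b + a i * j))

theorem t4_mem {a : Fin n → ℕ} {b j : ℕ} {x : Fin n → ℂ} :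
    x ∈ t4U a b j ↔ ∀ i, ‖x i‖ < (1 / 2 : ℝ) ^ (b + a i * j) := by
  simp [t4U, Set.mem_pi]

theorem t4_meas (a : Fin n → ℕ) (b j : ℕ) : MeasurableSet (t4U a b j) :=
  MeasurableSet.univ_pi fun _ => Metric.isOpen_ball.measurableSet

theorem t4_volume (a : Fin n → ℕ) (b j : ℕ) :
    volume (t4U a b j) = ENNReal.ofReal (((1 / 2 : ℝ) ^ (2 * ∑ i, a i)) ^ j) *
      (ENNReal.ofReal ((1 / 2 : ℝ) ^ (2 * (n * b))) * (NNReal.pi : ENNReal) ^ n) := by
  unfold t4U
  rw [volume_pi_pi]
  simp only [Complex.volume_ball]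
  rw [Finset.prod_mul_distrib, Finset.prod_const, Finset.card_univ, Fintype.card_fin, ← mul_assoc,
    ← ENNReal.ofReal_mul (by positivity)]
  congr 1
  rw [Finset.prod_congr rfl fun i _ => (ENNReal.ofReal_pow (by positivity) 2).symm,
    ← ENNReal.ofReal_prod_of_nonneg fun i _ => by positivity]
  congr 1
  rw [Finset.prod_congr rfl fun i _ => (pow_mul (1 / 2 : ℝ) (b + a i * j) 2).symm,
    Finset.prod_pow_eq_pow_sum, ← pow_mul, ← pow_add]
  congr 1
  rw [← Finset.sum_mul, Finset.sum_add_distrib, Finset.sum_const, Finset.card_univ,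
    Fintype.card_fin, smul_eq_mul, ← Finset.sum_mul]
  ring

theorem t4_mono {a : Fin n → ℕ} {b j l : ℕ} (h : j ≤ l) : t4U a b l ⊆ t4U a b j := by
  intro x hx
  rw [t4_mem] at hx ⊢
  intro i
  exact (hx i).trans_le (pow_le_pow_of_le_one (by norm_num) (by norm_num)
    (Nat.add_le_add_left (Nat.mul_le_mul_left _ h) _))

/-- If `f` has terms of weight at least `D`, for weights `a_i ≥ 0` (some of them may be zero), then
`|f|^{-2|a|/D}` is not integrable at the origin. -/
theorem not_integrableOn_of_lowW0 {f : MvPolynomial (Fin n) ℂ} {a : Fin n → ℕ}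
    (hA0 : 0 < ∑ i, a i) {D : ℕ} (hD : 0 < D) (hf : f ≠ 0)
    (hlow : ∀ v ∈ f.support, D ≤ MPb07157.wt a v) {r : ℝ} (hr : 0 < r) :
    ¬ IntegrableOn (fun x => Lct.NN f x ^ (-(((∑ i, a i : ℕ) : ℝ) / D)))
      (Metric.ball (0 : Fin n → ℂ) r) := by
  intro hint
  obtain ⟨C, hC0, hC⟩ := Lct.lw_norm_le hlow
  set A : ℕ := ∑ i, a i with hA
  have hD' : (0 : ℝ) < D := by exact_mod_cast hD
  have hA' : (0 : ℝ) < A := by exact_mod_cast hA0
  set c : ℝ := (A : ℝ) / D with hc
  have hc0 : 0 < c := by positivity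
  obtain ⟨b, hb⟩ := exists_pow_lt_of_lt_one hr (show (1 / 2 : ℝ) < 1 by norm_num)
  set S : ℕ → Set (Fin n → ℂ) := fun j => t4U a b j \ t4U a b (j + 1) with hS
  have hSm : ∀ j, MeasurableSet (S j) := fun j => (t4_meas _ _ _).diff (t4_meas _ _ _)
  have hSd : Pairwise (Function.onFun Disjoint S) := by
    have key : ∀ i j, i < j → Disjoint (S i) (S j) := by
      intro i j hij
      rw [Set.disjoint_left]
      intro x hx hx'
      exact hx.2 (t4_mono (by omega) hx'.1)
    intro i j hij
    rcases lt_or_gt_of_ne hij with h | h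
    · exact key i j h
    · exact (key j i h).symm
  have hSsub : ∀ j, S j ⊆ Metric.ball (0 : Fin n → ℂ) r := by
    intro j x hx
    have h1 := t4_mem.1 hx.1
    rw [mem_ball_zero_iff]
    refine lt_of_le_of_lt ?_ hb
    rw [pi_norm_le_iff_of_nonneg (by positivity)]
    intro i
    exact (h1 i).le.trans (pow_le_pow_of_le_one (by norm_num) (by norm_num) (Nat.le_add_right _ _))
  have hSU : ∀ j, S j ⊆ Lct.lwU a j := by
    intro j x hx
    rw [Lct.lw_mem]
    intro i
    exact (t4_mem.1 hx.1 i).trans_le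
      (pow_le_pow_of_le_one (by norm_num) (by norm_num) (Nat.le_add_left _ _))
  set q : ℝ := (1 / 2 : ℝ) ^ (2 * A) with hq
  have hq0 : 0 < q := by positivity
  have hq1 : q < 1 := pow_lt_one₀ (by norm_num) (by norm_num) (by omega)
  set κ : ENNReal := ENNReal.ofReal ((1 / 2 : ℝ) ^ (2 * (n * b))) * (NNReal.pi : ENNReal) ^ n
    with hκ
  have hκt : κ ≠ ⊤ :=
    ENNReal.mul_ne_top ENNReal.ofReal_ne_top (ENNReal.pow_ne_top ENNReal.coe_ne_top)
  have hvol : ∀ j, volume (S j) = ENNReal.ofReal (q ^ j * (1 - q)) * κ := by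
    intro j
    have hfin : volume (t4U a b (j + 1)) ≠ ⊤ := by
      rw [t4_volume]
      exact ENNReal.mul_ne_top ENNReal.ofReal_ne_top hκt
    simp only [hS]
    rw [measure_sdiff (t4_mono (by omega)) (t4_meas _ _ _).nullMeasurableSet hfin, t4_volume,
      t4_volume, ← hκ, ← ENNReal.sub_mul (fun _ _ => hκt), ← ENNReal.ofReal_sub _ (by positivity)]
    congr 2
    rw [← hA, ← hq]
    ring
  have hlow2 : ∀ j, ∫⁻ x in S j, ENNReal.ofReal ((C ^ 2) ^ (-c) * (q ^ j)⁻¹) ≤
      ∫⁻ x in S j, ‖Lct.NN f x ^ (-c)‖ₑ := by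
    intro j
    refine lintegral_mono_ae ?_
    filter_upwards [ae_restrict_of_ae (s := S j) (Alp.ae_eval_ne_zero hf),
      ae_restrict_mem (hSm j)] with x hx hxS
    have hNN : 0 < Lct.NN f x := Complex.normSq_pos.2 hx
    rw [Real.enorm_of_nonneg (Real.rpow_nonneg (Lct.NN_nonneg f x) _)]
    apply ENNReal.ofReal_le_ofReal
    have h2 : Lct.NN f x ≤ C ^ 2 * ((1 / 2 : ℝ) ^ j) ^ (2 * D) := by
      have h3 := hC _ x (hSU j hxS)
      unfold Lct.NN
      rw [Complex.normSq_eq_norm_sq]
      calc ‖eval x f‖ ^ 2 ≤ (C * ((1 / 2 : ℝ) ^ j) ^ D) ^ 2 :=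
            pow_le_pow_left₀ (norm_nonneg _) h3 2
        _ = _ := by ring
    have h4 : (C ^ 2 * ((1 / 2 : ℝ) ^ j) ^ (2 * D)) ^ (-c) ≤ Lct.NN f x ^ (-c) :=
      Real.rpow_le_rpow_of_nonpos hNN h2 (by linarith)
    refine le_trans (le_of_eq ?_) h4
    rw [Real.mul_rpow (by positivity) (by positivity)]
    congr 1
    rw [← Real.rpow_natCast ((1 / 2 : ℝ) ^ j) (2 * D), ← Real.rpow_mul (by positivity),
      show ((2 * D : ℕ) : ℝ) * -c = -((2 * A : ℕ) : ℝ) by
        rw [hc]
        push_cast
        field_simp,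
      Real.rpow_neg (by positivity), Real.rpow_natCast, hq, ← pow_mul, ← pow_mul,
      mul_comm j (2 * A)]
  have hterm : ∀ j, ∫⁻ x in S j, ENNReal.ofReal ((C ^ 2) ^ (-c) * (q ^ j)⁻¹) =
      ENNReal.ofReal ((C ^ 2) ^ (-c) * (1 - q)) * κ := by
    intro j
    rw [setLIntegral_const, hvol, ← mul_assoc, ← ENNReal.ofReal_mul (by positivity)]
    congr 2
    field_simp
  have hne : ENNReal.ofReal ((C ^ 2) ^ (-c) * (1 - q)) * κ ≠ 0 := by
    refine mul_ne_zero ?_ (mul_ne_zero ?_ (pow_ne_zero _ ?_))
    · rw [Ne, ENNReal.ofReal_eq_zero, not_le]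
      have h1 : 0 < 1 - q := by linarith
      positivity
    · rw [Ne, ENNReal.ofReal_eq_zero, not_le]
      positivity
    · exact_mod_cast NNReal.pi_pos.ne'
  have htop : ∫⁻ x in ⋃ j, S j, ‖Lct.NN f x ^ (-c)‖ₑ = ⊤ := by
    rw [lintegral_iUnion hSm hSd, ← top_le_iff,
      ← ENNReal.tsum_const_eq_top_of_ne_zero (α := ℕ) hne]
    exact ENNReal.tsum_le_tsum fun j => by
      rw [← hterm j]
      exact hlow2 j
  have h1 : ∫⁻ x in ⋃ j, S j, ‖Lct.NN f x ^ (-c)‖ₑ < ⊤ :=
    (hint.mono_set (Set.iUnion_subset hSsub)).2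
  exact h1.ne htop

/-- **The log canonical threshold is at most `7/8`** at the critical points outside the origin of
a cone in four variables which are neither double points nor triple points with reduced tangent
cone. -/
theorem not_integrable_four {f : MvPolynomial (Fin 4) ℂ} (hf : f ≠ 0) {d : ℕ}
    (hh : f.IsHomogeneous d) {p : Fin 4 → ℂ} (hp : p ≠ 0) (h0 : eval p f = 0)
    (h1 : ∀ i, eval p (pderiv i f) = 0) (h2 : YG.hessAt f p = 0)
    (h3 : ¬ Squarefree (homogeneousComponent 3 (translate p f))) {r : ℝ} (hr : 0 < r) :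
    ¬ IntegrableOn (fun x => ‖eval x f‖ ^ (-(2 * (7 / 8 : ℝ)))) (Metric.ball p r) volume := by
  classical
  intro hint
  have hlow : ∀ o, constantCoeff (SE3.gen (translate p f) o) = 0 := by
    intro o
    rw [SE3.gen_translate, ← MB.eval_eq_constantCoeff]
    rcases o with _ | i | ⟨i, j⟩
    · exact h0
    · exact h1 i
    · exact congrFun (congrFun h2 i) j
  have low := SE3.low_of_gen hlow
  have hF := integrableOn_translate hint
  have hF0 : translate p f ≠ 0 := translate_ne_zero hf p
  obtain ⟨l, m, hl, hl0, hlp, hc⟩ := t4_exists_l (homogeneousComponent_isHomogeneous 3 _) h3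
    (t4_dir hh low)
  obtain ⟨M, k, hM, hk, hMk, hMl⟩ := t4_exists_M hl hl0 hp hlp
  obtain ⟨r', hr', hG⟩ := integrableOn_lin hM hr hF
  have hH : (aeval (subM M) f).IsHomogeneous d := by
    have h5 := hh.aeval (subM M) (n := 1) fun i =>
      IsHomogeneous.sum _ _ _ fun j _ => (isHomogeneous_X _ j).C_mul _
    rwa [one_mul] at h5
  have hGH : aeval (subM M) (translate p f) = translate (Pi.single k 1) (aeval (subM M) f) := by
    refine MvPolynomial.funext fun x => ?_
    rw [eval_subM, eval_translate', eval_translate', eval_subM, Matrix.mulVec_add, hMk]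
  have hG0 : aeval (subM M) (translate p f) ≠ 0 := by
    intro hG0
    apply hF0
    refine MvPolynomial.funext fun w => ?_
    have hu : IsUnit M.det := isUnit_iff_ne_zero.2 hM
    have h5 : M.mulVec ((M⁻¹).mulVec w) = w := by
      rw [Matrix.mulVec_mulVec, Matrix.mul_nonsing_inv _ hu, Matrix.one_mulVec]
    rw [map_zero, ← h5, ← eval_subM, hG0, map_zero]
  have hGlow : ∀ j < 3, homogeneousComponent j (aeval (subM M) (translate p f)) = 0 := by
    intro j hj
    rw [homogeneousComponent_subM, low j hj, map_zero]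
  have hG3 : homogeneousComponent 3 (aeval (subM M) (translate p f)) =
      X 0 ^ 2 * aeval (subM M) m := by
    rw [homogeneousComponent_subM, hc, map_mul, map_pow, hMl]
  rw [hGH] at hG hG0 hGlow hG3
  have hsum := t4_sum k hk
  have h6 := not_integrableOn_of_lowW0 (f := translate (Pi.single k 1) (aeval (subM M) f))
    (a := fun j => if j = k then 0 else if j = 0 then 3 else 2) (D := 8)
    (by rw [hsum]; norm_num) (by norm_num) hG0 (t4_weight hH hk hGlow hG3) hr'
  apply h6
  refine hG.congr_fun (fun x _ => ?_) measurableSet_ball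
  show ‖eval x _‖ ^ (-(2 * (7 / 8 : ℝ))) = Lct.NN _ x ^ _
  rw [hsum]
  unfold Lct.NN
  rw [Complex.normSq_eq_norm_sq, ← Real.rpow_natCast, ← Real.rpow_mul (norm_nonneg _)]
  congr 1
  push_cast
  ring

end LC

end MPb07157
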