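import Pool.Agent.Lib.MP_b07157_agLC.LR
import Pool.Agent.Lib.MP_b07157_agLC.T
import Pool.Agent.Lib.MP_b07157_agLC.T4
import Pool.Agent.Lib.MP_b07157_agSE.Surf
import Pool.Agent.Lib.MP_b07157_agSG.ConeT

/-!
# Surfaces with log canonical threshold greater than `7/8`

A critical zero `p` of `f` with `|f|^(-7/4)` locally integrable at `p` (for instance, if `(ℂ³, {f = 0})`
is log canonical at `p`) is a double point or a triple point with reduced tangent cone.
-/

noncomputable section

namespace MPb07157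

open MvPolynomial MeasureTheory Metric

namespace LC

theorem dich_three {f : MvPolynomial (Fin 3) ℂ} (hf : f ≠ 0) {p : Fin 3 → ℂ}
    (h0 : eval p f = 0) (h1 : ∀ i, eval p (pderiv i f) = 0)
    (h : ∃ r : ℝ, 0 < r ∧
      IntegrableOn (fun x : Fin 3 → ℂ => ‖eval x f‖ ^ (-(2 * (7 / 8 : ℝ)))) (ball p r)) :
    YG.hessAt f p ≠ 0 ∨ Squarefree (homogeneousComponent 3 (translate p f)) := by
  by_contra hcon
  rw [not_or, not_ne_iff] at hcon
  obtain ⟨r, hr, hint⟩ := h
  exact not_integrable_three hf h0 h1 hcon.1 hcon.2 hr hint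

end LC

open LC in
/-- **The strong monodromy conjecture, local version**, for the germs in three variables with
`|f|^(-7/4)` locally integrable. -/
theorem SmcLoc.of_lct {f : MvPolynomial (Fin 3) ℂ} (hf : f ≠ 0) (h0 : coeff 0 f = 0)
    (h : ∃ r : ℝ, 0 < r ∧
      IntegrableOn (fun x : Fin 3 → ℂ => ‖eval x f‖ ^ (-(2 * (7 / 8 : ℝ)))) (ball 0 r)) :
    SmcLoc f := by
  by_cases hs : ∃ i, coeff (Finsupp.single i 1) f ≠ 0
  · obtain ⟨i, hi⟩ := hs
    exact SU.smcLoc_smooth h0 hi
  push Not at hs
  have ht : translate 0 f = f := by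
    unfold translate
    simp
  have e0 : eval 0 f = 0 := by
    rw [← SE3.coeff_zero_tr, ht]
    exact h0
  have e1 : ∀ i, eval 0 (pderiv i f) = 0 := by
    intro i
    rw [← SE3.coeff_zero_tr, ← pderiv_translate, ht, ← constantCoeff_eq, ← Str.coeff_single_eq]
    exact hs i
  by_cases hH : YG.hessAt f 0 = 0
  · have h3 := (dich_three hf e0 e1 h).resolve_left (not_not.2 hH)
    rw [ht] at h3
    refine SmcLoc.of_triple ?_ h3
    have h4 := SE3.low_of_gen (CC.gen_zero e0 e1 hH)
    rwa [ht] at h4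
  · refine SU.smcLoc_corank hf h0 ?_
    have h4 := CK.hess_translate f 0
    rw [ht] at h4
    rw [h4]
    have := SE3.one_le_rank hH
    omega

open LC in
/-- **The strong monodromy conjecture, global version**, for the polynomials in three variables with
`|f|^(-7/4)` locally integrable at the critical zeros. -/
theorem SmcGlob.of_lct {f : MvPolynomial (Fin 3) ℂ} (hf : f ≠ 0)
    (h : ∀ p, eval p f = 0 → (∀ i, eval p (pderiv i f) = 0) → ∃ r : ℝ, 0 < r ∧
      IntegrableOn (fun x : Fin 3 → ℂ => ‖eval x f‖ ^ (-(2 * (7 / 8 : ℝ)))) (ball p r)) :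
    SmcGlob f := by
  by_cases hz : ∃ p, eval p f = 0
  swap
  · push Not at hz
    exact SE3.smcGlob_of_ne hf hz
  obtain ⟨p, hp⟩ := hz
  refine SE3.smcGlob_of_translate p (SmcGlob.of_surf (translate_ne_zero hf p)
    (by rw [SE3.coeff_zero_tr, hp]) (T := ∅) Set.finite_empty
    (fun _ hW => absurd hW (Set.notMem_empty _)) fun q hq0 hq1 => Or.inr (Or.inr ?_))
  rw [D5.eval_translate'] at hq0
  simp only [SE3.eval_pderiv_translate] at hq1
  obtain ⟨r, hr, hint⟩ := h (q + p) hq0 hq1
  rcases dich_three hf hq0 hq1 ⟨r, hr, hint⟩ with h1 | h1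
  · left
    rwa [SE3.hessAt_translate]
  · right
    have e1 : translate q (translate p f) = translate (q + p) f := by
      refine MvPolynomial.funext fun x => ?_
      rw [D5.eval_translate', D5.eval_translate', D5.eval_translate', add_assoc]
    rwa [e1]

/-- **The strong monodromy conjecture, local version**, for the homogeneous polynomials `f` of degree
`d ≥ 4` in four variables with `|f|^(-7/4)` locally integrable outside the origin. -/
theorem SmcLoc.of_lctCone {f : MvPolynomial (Fin 4) ℂ} (hf : f ≠ 0) {d : ℕ} (hd : 4 ≤ d)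
    (hh : f.IsHomogeneous d)
    (h : ∀ p, p ≠ 0 → eval p f = 0 → (∀ i, eval p (pderiv i f) = 0) → ∃ r : ℝ, 0 < r ∧
      IntegrableOn (fun x : Fin 4 → ℂ => ‖eval x f‖ ^ (-(2 * (7 / 8 : ℝ)))) (ball p r)) :
    SmcLoc f := by
  refine SmcLoc.of_coneT hf (by omega) hh (T := ∅) Set.finite_empty
    (fun _ hW => absurd hW (Set.notMem_empty _)) (fun p hp hp0 hp1 => Or.inr (Or.inr ?_)) ?_
  · by_contra hcon
    rw [not_or, not_ne_iff] at hcon
    obtain ⟨r, hr, hint⟩ := h p hp hp0 hp1
    exact LC.not_integrable_four hf hh hp hp0 hp1 hcon.1 hcon.2 hr hint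
  · rcases eq_or_lt_of_le hd with h4 | h4
    · exact Or.inl h4.symm
    · refine Or.inr (ConeRoot.of_integrable hf (by omega) hh (e := 7 / 8) ?_ (by norm_num) h)
      have h5 : (5 : ℝ) ≤ d := by exact_mod_cast h4
      rw [div_le_iff₀ (by linarith)]
      push_cast
      linarith

end MPb07157
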