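import Pool.Agent.Lib.MP_b07157_agLT.RE
import Pool.Agent.Lib.MP_b07157_agY.Y7

/-!
# The condition `ConeRoot` from the local integrability of `|f|^(-2e)`, `n/d ≤ e`
-/

noncomputable section

namespace MPb07157

open MvPolynomial MeasureTheory Metric Module MPb07157M
open scoped ENNReal

namespace LCR

variable {n : ℕ}

theorem rpow_le {t : ℝ≥0∞} {c e : ℝ} (hc : 0 < c) (hce : c ≤ e) :
    t ^ (-(2 * c)) ≤ 1 + t ^ (-(2 * e)) := by
  rcases le_total 1 t with h | h
  · exact (ENNReal.rpow_le_one_of_one_le_of_neg h (by linarith)).trans le_self_add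
  · exact (ENNReal.rpow_le_rpow_of_exponent_ge h (by linarith)).trans le_add_self

/-- The integral of the translate. -/
theorem lintegral_translate (f : MvPolynomial (Fin n) ℂ) (p : Fin n → ℂ) (r c : ℝ) :
    ∫⁻ x in ball (0 : Fin n → ℂ) r, ‖eval x (translate p f)‖ₑ ^ (-(2 * c)) =
      ∫⁻ x in ball p r, ‖eval x f‖ₑ ^ (-(2 * c)) := by
  symm
  rw [← lintegral_indicator measurableSet_ball, ← lintegral_indicator measurableSet_ball,
    ← lintegral_add_right_eq_self _ p]
  congr 1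
  funext x
  have h1 : (x + p ∈ ball p r) ↔ x ∈ ball (0 : Fin n → ℂ) r := by
    rw [mem_ball, mem_ball, dist_eq_norm, dist_eq_norm, add_sub_cancel_right, sub_zero]
  by_cases hx : x ∈ ball (0 : Fin n → ℂ) r
  · rw [Set.indicator_of_mem (h1.2 hx), Set.indicator_of_mem hx, eval_translate]
  · rw [Set.indicator_of_notMem (fun h => hx (h1.1 h)), Set.indicator_of_notMem hx]

/-- From the Bochner integral to the Lebesgue integral. -/
theorem lintegral_lt_top {f : MvPolynomial (Fin n) ℂ} (hf : f ≠ 0) {p : Fin n → ℂ} {r e : ℝ}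
    (h : IntegrableOn (fun x : Fin n → ℂ => ‖eval x f‖ ^ (-(2 * e))) (ball p r))
    {c : ℝ} (hc0 : 0 < c) (hc : c ≤ e) :
    ∫⁻ x in ball (0 : Fin n → ℂ) r, ‖eval x (translate p f)‖ₑ ^ (-(2 * c)) < ∞ := by
  rw [lintegral_translate]
  have h1 : ∫⁻ x in ball p r, ‖eval x f‖ₑ ^ (-(2 * e)) < ∞ := by
    refine lt_of_le_of_lt (le_of_eq ?_) h.2
    refine lintegral_congr_ae ?_
    filter_upwards [ae_restrict_of_ae (Alp.ae_eval_ne_zero hf)] with x hx
    rw [Real.enorm_of_nonneg (Real.rpow_nonneg (norm_nonneg _) _), ← ofReal_norm,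
      ENNReal.ofReal_rpow_of_pos (norm_pos_iff.2 hx)]
  calc ∫⁻ x in ball p r, ‖eval x f‖ₑ ^ (-(2 * c))
      ≤ ∫⁻ x in ball p r, (1 + ‖eval x f‖ₑ ^ (-(2 * e))) :=
        lintegral_mono fun x => rpow_le hc0 hc
    _ = (∫⁻ _ in ball p r, 1) + ∫⁻ x in ball p r, ‖eval x f‖ₑ ^ (-(2 * e)) := by
        rw [lintegral_add_left measurable_const]
    _ < ∞ := by
        refine ENNReal.add_lt_top.2 ⟨?_, h1⟩
        rw [setLIntegral_one]
        exact measure_ball_lt_top

end LCR

open LCR in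
/-- The condition `ConeRoot` from the integrability of `|f|^(-2e)`, `n/d ≤ e ≤ 1`, at the critical
zeros `p ≠ 0`. -/
theorem ConeRoot.of_integrable {n : ℕ} {f : MvPolynomial (Fin n) ℂ} (hf : f ≠ 0) {d : ℕ}
    (hd : 0 < d) (hh : f.IsHomogeneous d) {e : ℝ} (he : (n : ℝ) / d ≤ e) (he1 : e ≤ 1)
    (h : ∀ p ≠ 0, eval p f = 0 → (∀ i, eval p (pderiv i f) = 0) → ∃ r : ℝ, 0 < r ∧
      IntegrableOn (fun x : Fin n → ℂ => ‖eval x f‖ ^ (-(2 * e))) (ball p r)) :
    ConeRoot f d := by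
  refine Or.inl (Or.inl fun c hc0 hc => LT2.integrable_of_local hd hh hc0 hc fun p hp0 => ?_)
  have hce : c < e := hc.trans_le he
  by_cases h0 : eval p f = 0
  swap
  · refine local_integrable (v := 0) ?_ hc0 (by simp)
    rw [← constantCoeff_eq, Str.constantCoeff_translate]
    exact h0
  by_cases h1 : ∀ i, eval p (pderiv i f) = 0
  swap
  · push Not at h1
    obtain ⟨i, hi⟩ := h1
    refine local_integrable (v := Finsupp.single i 1) ?_ hc0 ?_
    · rw [Str.coeff_single_eq, pderiv_translate, Str.constantCoeff_translate]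
      exact hi
    · rw [Finsupp.degree_single]
      push_cast
      linarith
  obtain ⟨r, hr, hint⟩ := h p hp0 h0 h1
  exact ⟨r, hr, lintegral_lt_top hf hint hc0 hce.le⟩

end MPb07157
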