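import Pool.Agent.Lib.MP_b07157_agE.EDefs

/-!
# Dimensions of Milnor algebras
-/

noncomputable section

namespace MPb07157

open MvPolynomial

variable {n : ℕ}

/-- The Milnor algebra of `f` at `p` (the quotient of the ring of formal power series by the ideal
generated by the partial derivatives of `f(p + x)`) has dimension at most `N`. -/
def MilnorLe (f : MvPolynomial (Fin n) ℂ) (p : Fin n → ℂ) (N : ℕ) : Prop :=
  ∃ b : Fin N → MvPowerSeries (Fin n) ℂ, ∀ g : MvPowerSeries (Fin n) ℂ, ∃ c : Fin N → ℂ,
    g - ∑ i, c i • b i ∈ Ideal.span (Set.range fun i =>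
      MvPowerSeries.pderiv ℂ i (translate p f : MvPowerSeries (Fin n) ℂ))

end MPb07157
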