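import Pool.Agent.Lib.MP_b07157_agLC.MDefs
import Pool.Agent.Lib.MP_b07157_agLC.Main
import Pool.Agent.Lib.MP_b07157_agSG.ConeS
import Pool.Agent.Lib.MP_b07157_agQ.WHa

/-!
# The Milnor numbers of surface germs which are neither double points nor triple points with reduced
tangent cones
-/

noncomputable section

namespace MPb07157

open MvPolynomial

namespace LC

/-- The exponents of weight at most `N`, for the weights `(3, 2, 2)`. -/
def mS (N : ℕ) : Finset (ℕ × ℕ × ℕ) :=
  ((Finset.range 4) ×ˢ (Finset.range 6) ×ˢ (Finset.range 6)).filter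
    fun t => 3 * t.1 + 2 * t.2.1 + 2 * t.2.2 ≤ N

theorem card_mS : (mS 10).card = 38 ∧ (mS 5).card = 9 ∧ (mS 4).card = 7 := by decide

/-- The exponent of a triple. -/
def mE (t : ℕ × ℕ × ℕ) : Fin 3 →₀ ℕ := Finsupp.equivFunOnFinite.symm ![t.1, t.2.1, t.2.2]

theorem mE_zero (t : ℕ × ℕ × ℕ) : mE t 0 = t.1 := rfl
theorem mE_one (t : ℕ × ℕ × ℕ) : mE t 1 = t.2.1 := rfl
theorem mE_two (t : ℕ × ℕ × ℕ) : mE t 2 = t.2.2 := rfl

theorem mE_inj {s t : ℕ × ℕ × ℕ} (h : mE s = mE t) : s = t := by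
  have h0 := DFunLike.congr_fun h 0
  have h1 := DFunLike.congr_fun h 1
  have h2 := DFunLike.congr_fun h 2
  rw [mE_zero, mE_zero] at h0
  rw [mE_one, mE_one] at h1
  rw [mE_two, mE_two] at h2
  exact Prod.ext h0 (Prod.ext h1 h2)

theorem exists_mE {N : ℕ} (hN : N ≤ 10) {v : Fin 3 →₀ ℕ} (hv : 3 * v 0 + 2 * v 1 + 2 * v 2 ≤ N) :
    ∃ t ∈ mS N, mE t = v := by
  refine ⟨(v 0, v 1, v 2), ?_, ?_⟩
  · unfold mS
    rw [Finset.mem_filter, Finset.mem_product, Finset.mem_product, Finset.mem_range,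
      Finset.mem_range, Finset.mem_range]
    refine ⟨⟨?_, ?_, ?_⟩, hv⟩
    · show v 0 < 4
      omega
    · show v 1 < 6
      omega
    · show v 2 < 6
      omega
  · ext i
    fin_cases i <;> rfl

/-- The coefficients of weight at most `10`. -/
def mP : MvPolynomial (Fin 3) ℂ →ₗ[ℂ] (↥(mS 10) → ℂ) where
  toFun g := fun t => coeff (mE t) g
  map_add' _ _ := funext fun _ => coeff_add _ _ _
  map_smul' _ _ := funext fun _ => coeff_smul _ _ _

theorem mP_apply (g : MvPolynomial (Fin 3) ℂ) (t : ↥(mS 10)) : mP g t = coeff (mE t) g := rfl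

theorem mP_surj (y : ↥(mS 10) → ℂ) : ∃ g, mP g = y := by
  classical
  refine ⟨∑ t : ↥(mS 10), monomial (mE (t : ℕ × ℕ × ℕ)) (y t), funext fun s => ?_⟩
  rw [mP_apply, coeff_sum, Finset.sum_eq_single s, coeff_monomial, if_pos rfl]
  · intro t _ ht
    rw [coeff_monomial, if_neg]
    intro h
    exact ht (Subtype.ext (mE_inj h))
  · intro h
    exact absurd (Finset.mem_univ s) h

theorem mS_le {N : ℕ} {t : ℕ × ℕ × ℕ} (ht : t ∈ mS N) : 3 * t.1 + 2 * t.2.1 + 2 * t.2.2 ≤ N := by
  unfold mS at ht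
  exact (Finset.mem_filter.1 ht).2

/-- The multiples of a polynomial of weight at least `D`. -/
theorem mP_mul_mem {h : MvPolynomial (Fin 3) ℂ} {D N : ℕ} (hN : N + D = 10)
    (hh : ∀ v ∈ h.support, D ≤ 3 * v 0 + 2 * v 1 + 2 * v 2) (a : MvPolynomial (Fin 3) ℂ) :
    mP (a * h) ∈ Submodule.span ℂ (Set.range fun t : ↥(mS N) =>
      mP (monomial (mE (t : ℕ × ℕ × ℕ)) 1 * h)) := by
  classical
  rw [a.as_sum, Finset.sum_mul, map_sum]
  refine Submodule.sum_mem _ fun v _ => ?_
  by_cases hv : 3 * v 0 + 2 * v 1 + 2 * v 2 ≤ N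
  · obtain ⟨t, ht, hte⟩ := exists_mE (by omega) hv
    have h1 : monomial v (coeff v a) * h = coeff v a • (monomial (mE t) 1 * h) := by
      rw [hte, ← smul_mul_assoc, smul_monomial, smul_eq_mul, mul_one]
    rw [h1, map_smul]
    exact Submodule.smul_mem _ _ (Submodule.subset_span ⟨⟨t, ht⟩, rfl⟩)
  · have h1 : mP (monomial v (coeff v a) * h) = 0 := by
      funext s
      rw [mP_apply, coeff_monomial_mul', Pi.zero_apply]
      split_ifs with hle
      · have h2 := mS_le s.2
        by_contra hne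
        have h3 : coeff (mE (s : ℕ × ℕ × ℕ) - v) h ≠ 0 := fun h0 => hne (by rw [h0, mul_zero])
        have h4 := hh _ (mem_support_iff.2 h3)
        rw [Finsupp.tsub_apply, Finsupp.tsub_apply, Finsupp.tsub_apply, mE_zero, mE_one,
          mE_two] at h4
        have h5 := hle 0
        have h6 := hle 1
        have h7 := hle 2
        rw [mE_zero] at h5
        rw [mE_one] at h6
        rw [mE_two] at h7
        omega
      · rfl
    rw [h1]
    exact Submodule.zero_mem _

/-- The weights of the derivatives. -/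
theorem wt_pderiv {G : MvPolynomial (Fin 3) ℂ} (hG : ∀ v ∈ G.support, 8 ≤ wt ![3, 2, 2] v)
    (i : Fin 3) : ∀ v ∈ (pderiv i G).support,
      8 ≤ 3 * v 0 + 2 * v 1 + 2 * v 2 + (![3, 2, 2] : Fin 3 → ℕ) i := by
  intro v hv
  rw [mem_support_iff, coeff_pderiv] at hv
  have h1 := hG _ (mem_support_iff.2 (left_ne_zero_of_mul hv))
  unfold wt at h1
  rw [Fin.sum_univ_three] at h1
  fin_cases i <;> simp at h1 ⊢ <;> omega

/-- The dimension of the Milnor algebra, in good coordinates. -/
theorem mil_aux {G : MvPolynomial (Fin 3) ℂ} (hG : ∀ v ∈ G.support, 8 ≤ wt ![3, 2, 2] v)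
    (b : Fin 14 → MvPolynomial (Fin 3) ℂ)
    (h : ∀ g : MvPolynomial (Fin 3) ℂ, ∃ (c : Fin 14 → ℂ) (a : Fin 3 → MvPolynomial (Fin 3) ℂ),
      g - ∑ i, c i • b i - ∑ j, a j * pderiv j G ∈ idealOfVars (Fin 3) ℂ ^ 6) : False := by
  classical
  let Φ : (Fin 14 ⊕ (↥(mS 5) ⊕ (↥(mS 4) ⊕ ↥(mS 4)))) → (↥(mS 10) → ℂ) :=
    Sum.elim (fun i => mP (b i)) (Sum.elim
      (fun t => mP (monomial (mE (t : ℕ × ℕ × ℕ)) 1 * pderiv 0 G)) (Sum.elim
      (fun t => mP (monomial (mE (t : ℕ × ℕ × ℕ)) 1 * pderiv 1 G))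
      (fun t => mP (monomial (mE (t : ℕ × ℕ × ℕ)) 1 * pderiv 2 G))))
  have hspan : Submodule.span ℂ (Set.range Φ) = ⊤ := by
    rw [eq_top_iff]
    intro y _
    obtain ⟨g, hg⟩ := mP_surj y
    obtain ⟨c, a, hr⟩ := h g
    have h0 : mP (g - ∑ i, c i • b i - ∑ j, a j * pderiv j G) = 0 := by
      funext t
      rw [mP_apply, Pi.zero_apply]
      have h1 := (mem_pow_idealOfVars_iff' _ _).1 hr
      apply h1
      have h2 := mS_le t.2
      rw [Finsupp.degree_eq_sum, Fin.sum_univ_three, mE_zero, mE_one, mE_two]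
      omega
    have h1 : y = ∑ i, c i • mP (b i) + ∑ j, mP (a j * pderiv j G) := by
      rw [map_sub, map_sub, map_sum, map_sum, hg] at h0
      simp only [map_smul] at h0
      rw [sub_sub, sub_eq_zero] at h0
      exact h0
    rw [h1]
    refine Submodule.add_mem _ (Submodule.sum_mem _ fun i _ => Submodule.smul_mem _ _
      (Submodule.subset_span ⟨Sum.inl i, rfl⟩)) ?_
    rw [Fin.sum_univ_three]
    refine Submodule.add_mem _ (Submodule.add_mem _ ?_ ?_) ?_
    · refine Submodule.span_mono ?_ (mP_mul_mem (h := pderiv 0 G) (D := 5) (N := 5) rfl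
        (fun v hv => ?_) (a 0))
      · rintro _ ⟨t, rfl⟩
        exact ⟨Sum.inr (Sum.inl t), rfl⟩
      · have := wt_pderiv hG 0 v hv
        simp at this
        omega
    · refine Submodule.span_mono ?_ (mP_mul_mem (h := pderiv 1 G) (D := 6) (N := 4) rfl
        (fun v hv => ?_) (a 1))
      · rintro _ ⟨t, rfl⟩
        exact ⟨Sum.inr (Sum.inr (Sum.inl t)), rfl⟩
      · have := wt_pderiv hG 1 v hv
        simp at this
        omega
    · refine Submodule.span_mono ?_ (mP_mul_mem (h := pderiv 2 G) (D := 6) (N := 4) rfl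
        (fun v hv => ?_) (a 2))
      · rintro _ ⟨t, rfl⟩
        exact ⟨Sum.inr (Sum.inr (Sum.inr t)), rfl⟩
      · have := wt_pderiv hG 2 v hv
        simp at this
        omega
  have h1 := finrank_range_le_card (R := ℂ) Φ
  unfold Set.finrank at h1
  rw [hspan, finrank_top, Module.finrank_fintype_fun_eq_card] at h1
  simp only [Fintype.card_sum, Fintype.card_coe, Fintype.card_fin, card_mS.1, card_mS.2.1,
    card_mS.2.2] at h1
  omega

/-- The germs of this kind have Milnor number at least `15`. -/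
theorem milnor_three {F : MvPolynomial (Fin 3) ℂ} (low : ∀ j < 3, homogeneousComponent j F = 0)
    (h3 : ¬ Squarefree (homogeneousComponent 3 F)) (b : Fin 14 → MvPowerSeries (Fin 3) ℂ)
    (h : ∀ g : MvPowerSeries (Fin 3) ℂ, ∃ c : Fin 14 → ℂ, g - ∑ i, c i • b i ∈
      Ideal.span (Set.range fun j => MvPowerSeries.pderiv ℂ j (F : MvPowerSeries (Fin 3) ℂ))) :
    False := by
  classical
  -- good coordinates
  obtain ⟨M, hM, hM3⟩ : ∃ M : Matrix (Fin 3) (Fin 3) ℂ, M.det ≠ 0 ∧
      (homogeneousComponent 3 (aeval (subM M) F) = 0 ∨ ∃ m : MvPolynomial (Fin 3) ℂ,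
        m.IsHomogeneous 1 ∧ homogeneousComponent 3 (aeval (subM M) F) = X 0 ^ 2 * m) := by
    rcases exists_square (homogeneousComponent_isHomogeneous 3 F) h3 with h4 | ⟨l, m, hl, hl0, hm, h4⟩
    · refine ⟨1, by rw [Matrix.det_one]; exact one_ne_zero, Or.inl ?_⟩
      rw [homogeneousComponent_subM, h4, map_zero]
    · obtain ⟨M, hM, hMl⟩ := exists_coordM (n := 2) hl hl0
      refine ⟨M, hM, Or.inr ⟨aeval (subM M) m, ?_, ?_⟩⟩
      · have h5 := hm.aeval (subM M) (n := 1) fun i =>
          IsHomogeneous.sum _ _ _ fun j _ => (isHomogeneous_X _ j).C_mul _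
        rwa [one_mul] at h5
      · rw [homogeneousComponent_subM, h4, map_mul, map_pow, hMl]
  have hGlow : ∀ j < 3, homogeneousComponent j (aeval (subM M) F) = 0 := by
    intro j hj
    rw [homogeneousComponent_subM, low j hj, map_zero]
  have hu : IsUnit M.det := isUnit_iff_ne_zero.2 hM
  choose b' hb' using fun i => exists_poly_lowZ 6 (b i)
  refine mil_aux (weight_le hGlow hM3) (fun i => aeval (subM M) (b' i)) fun g => ?_
  -- the inverse substitution
  have hinv : aeval (subM M) (aeval (subM M⁻¹) g) = g := by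
    refine MvPolynomial.funext fun w => ?_
    rw [eval_subM, eval_subM, Matrix.mulVec_mulVec, Matrix.nonsing_inv_mul _ hu,
      Matrix.one_mulVec]
  obtain ⟨c, hc⟩ := h (aeval (subM M⁻¹) g : MvPolynomial (Fin 3) ℂ)
  obtain ⟨a, ha⟩ := Ideal.mem_span_range_iff_exists_fun.1 hc
  choose a' ha' using fun i => exists_poly_lowZ 6 (a i)
  have hr : aeval (subM M⁻¹) g - ∑ i, c i • b' i - ∑ j, a' j * pderiv j F ∈
      idealOfVars (Fin 3) ℂ ^ 6 := by
    rw [mem_vars_pow_iff]
    have h1 : ((aeval (subM M⁻¹) g - ∑ i, c i • b' i - ∑ j, a' j * pderiv j F :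
        MvPolynomial (Fin 3) ℂ) : MvPowerSeries (Fin 3) ℂ) =
        ∑ i, MvPowerSeries.C (c i) * (b i - (b' i : MvPowerSeries (Fin 3) ℂ)) +
        ∑ j, (a j - (a' j : MvPowerSeries (Fin 3) ℂ)) *
          MvPowerSeries.pderiv ℂ j (F : MvPowerSeries (Fin 3) ℂ) := by
      rw [← MvPolynomial.coeToMvPowerSeries.ringHom_apply, map_sub, map_sub, map_sum, map_sum]
      simp only [smul_eq_C_mul, map_mul, MvPolynomial.coeToMvPowerSeries.ringHom_apply,
        MvPolynomial.coe_C, mul_sub, sub_mul, Finset.sum_sub_distrib, ha, coe_pderiv_ps,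
        MvPowerSeries.smul_eq_C_mul]
      ring
    rw [h1]
    refine LowZ.add (LowZ.sum _ fun i _ => ?_) (LowZ.sum _ fun j _ => ?_)
    · exact (hb' i).mul_left _
    · exact (ha' j).mul_right _
  -- the image
  have hsub : ∀ P ∈ idealOfVars (Fin 3) ℂ ^ 6, aeval (subM M) P ∈ idealOfVars (Fin 3) ℂ ^ 6 := by
    intro P hP
    have h1 : Ideal.map (aeval (subM M) : MvPolynomial (Fin 3) ℂ →ₐ[ℂ] MvPolynomial (Fin 3) ℂ)
        (idealOfVars (Fin 3) ℂ) ≤ idealOfVars (Fin 3) ℂ := by
      rw [Ideal.map_le_iff_le_comap]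
      unfold idealOfVars
      rw [Ideal.span_le]
      rintro _ ⟨i, rfl⟩
      rw [SetLike.mem_coe, Ideal.mem_comap, aeval_X]
      exact Ideal.sum_mem _ fun j _ => Ideal.mul_mem_left _ _ (Ideal.subset_span ⟨j, rfl⟩)
    have h2 := Ideal.mem_map_of_mem (aeval (subM M) : MvPolynomial (Fin 3) ℂ →ₐ[ℂ]
      MvPolynomial (Fin 3) ℂ) hP
    rw [Ideal.map_pow] at h2
    exact Ideal.pow_right_mono h1 6 h2
  have hder : ∀ j, aeval (subM M) (pderiv j F) =
      ∑ k, C (M⁻¹ k j) * pderiv k (aeval (subM M) F) := by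
    intro j
    have h1 : ∀ k l, pderiv k (subM M l) = C (M l k) := by
      intro k l
      show pderiv k (∑ i, C (M l i) * X i) = _
      rw [map_sum, Finset.sum_eq_single k]
      · rw [pderiv_C_mul, pderiv_X_self, mul_one]
      · intro i _ hi
        rw [pderiv_C_mul, pderiv_X_of_ne hi, mul_zero]
      · intro h
        exact absurd (Finset.mem_univ k) h
    have h2 : ∀ k, C (M⁻¹ k j) * pderiv k (aeval (subM M) F) =
        ∑ l, aeval (subM M) (pderiv l F) * C (M l k * M⁻¹ k j) := by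
      intro k
      rw [CC.ConeS.pderiv_aeval, Finset.mul_sum]
      refine Finset.sum_congr rfl fun l _ => ?_
      rw [h1, C_mul]
      ring
    rw [Finset.sum_congr rfl fun k _ => h2 k, Finset.sum_comm]
    have h3 : ∀ l, ∑ k, aeval (subM M) (pderiv l F) * C (M l k * M⁻¹ k j) =
        aeval (subM M) (pderiv l F) * C ((1 : Matrix (Fin 3) (Fin 3) ℂ) l j) := by
      intro l
      rw [← Finset.mul_sum, ← map_sum, ← Matrix.mul_apply, Matrix.mul_nonsing_inv _ hu]
    rw [Finset.sum_congr rfl fun l _ => h3 l, Finset.sum_eq_single j, Matrix.one_apply_eq, C_1,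
      mul_one]
    · intro l _ hl
      rw [Matrix.one_apply_ne hl, C_0, mul_zero]
    · intro h
      exact absurd (Finset.mem_univ j) h
  refine ⟨c, fun k => ∑ j, aeval (subM M) (a' j) * C (M⁻¹ k j), ?_⟩
  have h2 := hsub _ hr
  rw [map_sub, map_sub, hinv, map_sum, map_sum] at h2
  have h3 : ∑ k, (∑ j, aeval (subM M) (a' j) * C (M⁻¹ k j)) * pderiv k (aeval (subM M) F) =
      ∑ j, aeval (subM M) (a' j * pderiv j F) := by
    simp only [Finset.sum_mul]
    rw [Finset.sum_comm]
    refine Finset.sum_congr rfl fun j _ => ?_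
    rw [map_mul, hder, Finset.mul_sum]
    exact Finset.sum_congr rfl fun k _ => by ring
  rw [h3]
  simpa only [map_smul] using h2

end LC

open LC in
/-- **The strong monodromy conjecture, local version**, for the isolated singularities of Milnor
number at most `14` in three variables. -/
theorem SmcLoc.of_milnor {f : MvPolynomial (Fin 3) ℂ} (hf : f ≠ 0) (h0 : coeff 0 f = 0)
    (h : MilnorLe f 0 14) : SmcLoc f := by
  by_cases hs : ∃ i, coeff (Finsupp.single i 1) f ≠ 0
  · obtain ⟨i, hi⟩ := hs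
    exact SU.smcLoc_smooth h0 hi
  push Not at hs
  have ht : translate 0 f = f := by
    unfold translate
    simp
  have e0 : eval 0 f = 0 := by
    rw [← SE3.coeff_zero_tr, ht]
    exact h0
  have e1 : ∀ i, eval 0 (pderiv i f) = 0 := by
    intro i
    rw [← SE3.coeff_zero_tr, ← pderiv_translate, ht, ← constantCoeff_eq, ← Str.coeff_single_eq]
    exact hs i
  by_cases hH : YG.hessAt f 0 = 0
  · have h4 := SE3.low_of_gen (CC.gen_zero e0 e1 hH)
    obtain ⟨b, hb⟩ := h
    rw [ht] at h4 hb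
    refine SmcLoc.of_triple h4 ?_
    by_contra h3
    exact milnor_three h4 h3 b hb
  · refine SU.smcLoc_corank hf h0 ?_
    have h4 := CK.hess_translate f 0
    rw [ht] at h4
    rw [h4]
    have := SE3.one_le_rank hH
    omega

open LC in
/-- **The strong monodromy conjecture, global version**, for the polynomials in three variables all
of whose critical zeros `p`, outside finitely many sets along which the conjecture is known, are
ordinary multiple points along smooth germs, or double points (the Hessian matrix is not zero), or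
triple points whose tangent cone is reduced, or have Milnor number at most `14`, or satisfy
`lct_p(f) > 7/8`. -/
theorem SmcGlob.of_surfM {f : MvPolynomial (Fin 3) ℂ} (hf : f ≠ 0) (h0 : coeff 0 f = 0)
    {T : Set (Set (Fin 3 → ℂ))} (hT : T.Finite) (hTW : ∀ W ∈ T, IsConstr W ∧ MonoAlong f W)
    (hcov : ∀ p, eval p f = 0 → (∀ i, eval p (pderiv i f) = 0) →
      (∃ W ∈ T, p ∈ W) ∨ OrdMult f p ∨ YG.hessAt f p ≠ 0 ∨
        Squarefree (homogeneousComponent 3 (translate p f)) ∨ MilnorLe f p 14 ∨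
        ∃ r : ℝ, 0 < r ∧ MeasureTheory.IntegrableOn
          (fun x => ‖eval x f‖ ^ (-(2 * (7 / 8 : ℝ)))) (Metric.ball p r)) : SmcGlob f := by
  refine SmcGlob.of_surf hf h0 hT hTW fun p hp hc => ?_
  rcases hcov p hp hc with h | h | h | h | h | h
  · exact Or.inl h
  · exact Or.inr (Or.inl h)
  · exact Or.inr (Or.inr (Or.inl h))
  · exact Or.inr (Or.inr (Or.inr h))
  · by_cases hH : YG.hessAt f p = 0
    · right; right; right
      by_contra h3
      obtain ⟨b, hb⟩ := h
      exact milnor_three (SE3.low_of_gen (CC.gen_zero hp hc hH)) h3 b hb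
    · exact Or.inr (Or.inr (Or.inl hH))
  · rcases dich_three hf hp hc h with h1 | h1
    · exact Or.inr (Or.inr (Or.inl h1))
    · exact Or.inr (Or.inr (Or.inr h1))

end MPb07157
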