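import Pool.Agent.Lib.MP_b07157_agM.TDefs
import Pool.Agent.Lib.MP_b07157_agM.WCDefs
import Pool.Agent.Lib.MP_b07157_agE.EDefs

/-!
# A condition on the points of a weighted homogeneous hypersurface
-/

noncomputable section

namespace MPb07157

open MvPolynomial MeasureTheory

variable {n : ℕ}

/-- `∑ a_i ≤ D`, and at each critical point `p ≠ 0` with `f(p) = 0` the Hessian matrix of `f` has rank
at least two, or the multiplicity of `f` at `p` is at most `D/∑ a_i`, or `|f|^(-2e)` is integrable near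
`p` for some `e ≥ ∑ a_i/D`. -/
def WRankRoot (f : MvPolynomial (Fin n) ℂ) (a : Fin n → ℕ) (D : ℕ) : Prop :=
  ∑ i, a i ≤ D ∧ ∀ p ≠ 0, eval p f = 0 → (∀ i, eval p (pderiv i f) = 0) →
    2 ≤ (YG.hessAt f p).rank ∨
      (∃ v : Fin n →₀ ℕ, (∑ i, a i) * v.degree ≤ D ∧ coeff v (translate p f) ≠ 0) ∨
      ∃ e r : ℝ, ((∑ i, a i : ℕ) : ℝ) / D ≤ e ∧ 0 < r ∧
        IntegrableOn (fun x : Fin n → ℂ => ‖eval x f‖ ^ (-(2 * e))) (Metric.ball p r)

end MPb07157
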