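import Pool.Agent.Lib.MP_b07157_agSG.Final
import Pool.Agent.Lib.MP_b07157_agSF.Glob

/-!
# The global version for weighted homogeneous polynomials
-/

noncomputable section

namespace MPb07157

open MvPolynomial

namespace YC

open YV YW

/-- The sets along which the conjecture is known, and the orbits: the zeta function of the arcs
which start on the orbits of the points of `P`. -/
theorem seriesAt_orbits {n : ℕ} {f : MvPolynomial (Fin n) ℂ} {a : Fin n → ℕ} {D : ℕ}
    (H : WHom f a D) (P : Finset (Fin n → ℂ)) :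
    ∃ A : Set (Fin n → ℂ), IsConstr A ∧ (∀ q ∈ P, q ∈ Cr f → ∀ t : ℂ, t ≠ 0 → sc a t q ∈ A) ∧
      ∀ s₀ : ℚ, (∀ q ∈ P, q ∈ Cr f → Zmot0 (translate q f) ∈ regularAt s₀) →
        seriesAt f A ∈ regularAt s₀ := by
  classical
  set S : Finset (Set (Fin n → ℂ)) := (P.filter (· ∈ Cr f)).image (orb a) with hS
  have hSm : ∀ O ∈ S, ∃ q ∈ P, q ∈ Cr f ∧ O = orb a q := by
    intro O hO
    obtain ⟨q, hq, rfl⟩ := Finset.mem_image.1 hO
    exact ⟨q, (Finset.mem_filter.1 hq).1, (Finset.mem_filter.1 hq).2, rfl⟩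
  have hSc : ∀ O ∈ S, IsConstr O := by
    intro O hO
    obtain ⟨q, -, hq, rfl⟩ := hSm O hO
    exact isConstr_orb H.ha hq.1
  refine ⟨⋃ O ∈ S, O, isConstr_biUnion _ _ hSc, fun q hq hqC t ht => ?_, fun s₀ h => ?_⟩
  · simp only [Set.mem_iUnion]
    exact ⟨orb a q, Finset.mem_image.2 ⟨q, Finset.mem_filter.2 ⟨hq, hqC⟩, rfl⟩, t, ht, rfl⟩
  · rw [seriesAt_biUnion f S (fun O => O) hSc (fun O hO O' hO' hne => by
      obtain ⟨q, -, -, rfl⟩ := hSm O hO
      obtain ⟨q', -, -, rfl⟩ := hSm O' hO'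
      exact (orb_eq_or_disjoint a q q').resolve_left hne)]
    refine sum_mem fun O hO => ?_
    obtain ⟨q, hqP, hq, rfl⟩ := hSm O hO
    rw [seriesAt_orb H hq]
    exact mul_mem (C_mem_regularAt s₀ _) (h q hqP hq)

theorem smcGlob_whom {k : ℕ} {f : MvPolynomial (Fin (k + 1)) ℂ} (hf : f ≠ 0)
    {a : Fin (k + 1) → ℕ} {D : ℕ} (H : WHom f a D) (hloc : SmcLoc f)
    {T : Set (Set (Fin (k + 1) → ℂ))} (hT : T.Finite) {P : Finset (Fin (k + 1) → ℂ)}
    (hcov : ∀ p ∈ Cr f, (∃ W ∈ T, p ∈ W) ∨ ∃ q ∈ P, ∃ t : ℂ, p = sc a t q)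
    (h : ∀ W ∈ T, IsConstr W ∧ MonoAlong f W)
    (hP : ∀ q ∈ P, q ∈ Cr f → SmcLoc (translate q f)) : SmcGlob f := by
  intro s₀ hs hpole b hb
  by_cases hs1 : s₀ = -1
  · subst hs1
    have H0 := wc0_of_wHom H hf
    have h0' : (0 : Fin (k + 1) →₀ ℕ) ∉ f.support := by
      intro h
      have h1 := H0.low 0 h
      unfold MPb07157.wt at h1
      have hD := H.hD
      simp at h1
      omega
    exact (roots_of_form (f := f) (s₀ := -1) fun b hb => neg_one_root hf h0' b hb).1 b hb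
  by_contra hcon
  apply hpole
  obtain ⟨A, hA, hA1, hA2⟩ := seriesAt_orbits H P
  rw [← seriesAt_univ, ← Set.union_compl_self A, seriesAt_union _ hA hA.compl disjoint_compl_right]
  refine add_mem (hA2 s₀ fun q hq hqC => ?_) ?_
  · by_contra hq1
    exact hcon (hP q hq hqC s₀ hs hq1 b (form_translate q hb))
  · have h0m : MonoAlong f {0} := by
      refine MonoAlong.of_point hf fun _ _ => ?_
      have ht : translate 0 f = f := by
        unfold translate
        simp
      rw [ht]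
      exact hloc
    refine seriesAt_mem_of_coverM hf hA.compl
      (T := (T ∪ {{0}}) ∪ Set.range (WJ f)) ((hT.union (Set.finite_singleton _)).union
        (Set.finite_range (WJ f))) (fun p hp hp0 => ?_) ?_ ?_
    · by_cases hc : ∀ i, eval p (pderiv i f) = 0
      · by_cases hp00 : p = 0
        · exact ⟨{0}, Or.inl (Or.inr rfl), hp00⟩
        · rcases hcov p ⟨hp00, hc⟩ with ⟨W, hW, hpW⟩ | ⟨q, hq, t, rfl⟩
          · exact ⟨W, Or.inl (Or.inl hW), hpW⟩
          · exfalso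
            have ht : t ≠ 0 := by
              rintro rfl
              apply hp00
              funext i
              simp [sc, zero_pow (H.ha i).ne']
            exact hp (hA1 q hq (crit_sc H ⟨hp00, hc⟩ (rw_orb_symm ⟨t, ht, rfl⟩)) t ht)
      · obtain ⟨j, hj⟩ := exists_mem_WJ hp0 hc
        exact ⟨WJ f j, Or.inr ⟨j, rfl⟩, hj⟩
    · rintro W ((hW | hW) | ⟨j, rfl⟩)
      · exact (h W hW).1
      · rw [Set.mem_singleton_iff.1 hW]
        exact isConstr_point 0
      · exact isConstr_WJ f j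
    · intro W hW V hV hVc hV0
      have hm : MonoAlong f W := by
        rcases hW with (hW | hW) | ⟨j, rfl⟩
        · exact (h W hW).2
        · rw [Set.mem_singleton_iff.1 hW]
          exact h0m
        · exact MonoAlong.of_trivAlong hf (CQ.trivAlong_WJ f j) fun _ _ => SU.smcLoc_X 0
      by_contra hser
      exact hcon (hm V hV hVc hV0 s₀ hs hs1 hser b hb)

end YC

/-- **Weighted homogeneous polynomials**, global version: the local version holds for `f`, and each
critical point `p ≠ 0` lies in one of finitely many sets along which the conjecture is known, or is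
an ordinary multiple point along a smooth germ, or the Hessian matrix has rank at least `n - 2`, or
`p` is in one of finitely many orbits along which the germs are in the class. -/
theorem SmcGlob.of_whom {k : ℕ} {f : MvPolynomial (Fin (k + 1)) ℂ} (hf : f ≠ 0)
    {a : Fin (k + 1) → ℕ} {D : ℕ} (H : WHom f a D) (hloc : SmcLoc f)
    {T : Set (Set (Fin (k + 1) → ℂ))}
    (hT : T.Finite) {P : Finset (Fin (k + 1) → ℂ)}
    (hcov : ∀ p, SingPt f p → (∃ W ∈ T, p ∈ W) ∨ OrdMult f p ∨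
      k + 1 ≤ (YG.hessAt f p).rank + 2 ∨ ∃ q ∈ P, ∃ t : ℂ, p = fun i => t ^ a i * q i)
    (h : ∀ W ∈ T, IsConstr W ∧ MonoAlong f W)
    {PP : (m : ℕ) → MvPolynomial (Fin m) ℂ → Prop}
    (hPP : ∀ (m : ℕ) (g : MvPolynomial (Fin m) ℂ), PP m g → g ≠ 0 → coeff 0 g = 0 → SmcLoc g)
    (j : (Fin (k + 1) → ℂ) → Fin (k + 1)) (hj : ∀ q ∈ P, q (j q) = 1)
    (hP : ∀ q ∈ P, PP k (YQ.chartEq f q (j q))) : SmcGlob f := by
  obtain ⟨T₁, hT₁, hcov₁, hW₁⟩ := exists_cover_ordMult hf
  obtain ⟨T₂, hT₂, hW₂, hcov₂⟩ := CK.exists_cover_corank hf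
  refine YC.smcGlob_whom hf H hloc (T := (T ∪ T₁) ∪ T₂) ((hT.union hT₁).union hT₂) (P := P)
    (fun p hp => ?_) ?_ fun q hq hqC => ?_
  · rcases hcov p hp with ⟨W, hW, hpW⟩ | h | h | h
    · exact Or.inl ⟨W, Or.inl (Or.inl hW), hpW⟩
    · obtain ⟨W, hW, hpW⟩ := hcov₁ p h
      exact Or.inl ⟨W, Or.inl (Or.inr hW), hpW⟩
    · obtain ⟨W, hW, hpW⟩ := hcov₂ p (YC.eval_of_Cr H hp) hp.2 h
      exact Or.inl ⟨W, Or.inr hW, hpW⟩
    · exact Or.inr h
  · rintro W ((hW | hW) | hW)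
    · exact h W hW
    · obtain ⟨h1, k, m, h2⟩ := hW₁ W hW
      exact ⟨h1, MonoAlong.of_sqhAlong hf h2⟩
    · exact hW₂ W hW
  · have h0 := YC.eval_of_Cr H hqC
    refine YC.smcLoc_section H.ha H.hom hf (hj q hq) h0 ?_
    refine hPP k _ (hP q hq) (YC.gch_ne_zeroW hf H.ha H.hom q (j q)) ?_
    have h1 := SI.pole_eval_gch f q (j q) (hj q hq)
    rw [h0, MvPolynomial.eval_zero, constantCoeff_eq] at h1
    exact h1

end MPb07157
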