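import Pool.Agent.Lib.MP_b07157_agLC.LR
import Pool.Agent.Lib.MP_b07157_agLC.WDefs
import Pool.Agent.Lib.MP_b07157_agYW.LctW
import Pool.Agent.Lib.MP_b07157_agM.WCDefs

/-!
# The condition `WRoot` from local integrability outside the origin
-/

noncomputable section

namespace MPb07157

open MvPolynomial MeasureTheory Metric Module Lct MPb07157M
open scoped ENNReal

namespace LCW

variable {n : ℕ}

/-- The map `x_i ↦ 2^(-a_i) x_i`. -/
def dl (a : Fin n → ℕ) : (Fin n → ℂ) →ₗ[ℝ] (Fin n → ℂ) where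
  toFun x := fun i => ((1 / 2 : ℝ) ^ a i) • x i
  map_add' x y := by
    funext i
    simp only [Pi.add_apply, smul_add]
  map_smul' c x := by
    funext i
    simp only [Pi.smul_apply, RingHom.id_apply]
    rw [smul_comm]

theorem dl_apply (a : Fin n → ℕ) (x : Fin n → ℂ) (i : Fin n) :
    dl a x i = ((1 / 2 : ℝ) ^ a i) • x i := rfl

theorem dl_mem {a : Fin n → ℕ} {k : ℕ} {x : Fin n → ℂ} :
    dl a x ∈ lwU a (k + 1) ↔ x ∈ lwU a k := by
  rw [lw_mem, lw_mem]
  refine forall_congr' fun i => ?_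
  have hp : (0 : ℝ) < (1 / 2 : ℝ) ^ a i := by positivity
  rw [dl_apply, norm_smul, Real.norm_of_nonneg hp.le, Nat.mul_succ, pow_add,
    mul_comm ((1 / 2 : ℝ) ^ (a i * k))]
  exact mul_lt_mul_iff_right₀ hp

theorem dl_det (a : Fin n → ℕ) : LinearMap.det (dl a) ≠ 0 := by
  intro h
  have h1 := LinearMap.bot_lt_ker_of_det_eq_zero h
  have h2 : LinearMap.ker (dl a) = ⊥ := by
    rw [LinearMap.ker_eq_bot']
    intro x hx
    funext i
    have h3 := congrFun hx i
    rw [dl_apply, Pi.zero_apply, smul_eq_zero] at h3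
    exact h3.resolve_left (by positivity)
  rw [h2] at h1
  exact lt_irrefl _ h1

theorem dl_measurable (a : Fin n → ℕ) : Measurable (dl a) := by
  have : Continuous (dl a) := LinearMap.continuous_of_finiteDimensional _
  exact this.measurable

/-- The image of the volume. -/
theorem dl_map (a : Fin n → ℕ) : ∃ C : ℝ≥0∞, Measure.map (dl a) (volume : Measure (Fin n → ℂ)) =
    C • (volume : Measure (Fin n → ℂ)) ∧
      ENNReal.ofReal ((1 / 2 : ℝ) ^ (2 * ∑ i, a i)) * C = 1 := by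
  have h := Measure.map_linearMap_addHaar_eq_smul_addHaar
    (volume : Measure (Fin n → ℂ)) (dl_det a)
  refine ⟨_, h, ?_⟩
  have h1 := congrArg (fun μ : Measure (Fin n → ℂ) => μ (lwU a 1)) h
  simp only [Measure.smul_apply, smul_eq_mul] at h1
  rw [Measure.map_apply (dl_measurable a) (lw_meas a 1)] at h1
  have h2 : dl a ⁻¹' lwU a 1 = lwU a 0 := by
    ext x
    exact dl_mem
  rw [h2, lw_volume, lw_volume, pow_zero, ENNReal.ofReal_one, one_mul, pow_one, ← mul_assoc] at h1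
  have hpi : (NNReal.pi : ℝ≥0∞) ^ n ≠ 0 := by
    apply pow_ne_zero
    exact_mod_cast NNReal.pi_ne_zero
  have hpt : (NNReal.pi : ℝ≥0∞) ^ n ≠ ∞ := ENNReal.pow_ne_top ENNReal.coe_ne_top
  rw [mul_comm]
  have h3 : 1 * (NNReal.pi : ℝ≥0∞) ^ n =
      ENNReal.ofReal |(LinearMap.det (dl a))⁻¹| * ENNReal.ofReal ((1 / 2 : ℝ) ^ (2 * ∑ i, a i)) *
        (NNReal.pi : ℝ≥0∞) ^ n := by
    rw [one_mul]
    exact h1
  exact ((ENNReal.mul_left_inj hpi hpt).1 h3).symm

/-- The shells. -/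
def sh (a : Fin n → ℕ) (k : ℕ) : Set (Fin n → ℂ) := lwU a k \ lwU a (k + 1)

theorem sh_meas (a : Fin n → ℕ) (k : ℕ) : MeasurableSet (sh a k) := (lw_meas a k).diff (lw_meas a _)

theorem lintegral_sh_succ {a : Fin n → ℕ} {g : (Fin n → ℂ) → ℝ≥0∞} (hg : Measurable g) {B : ℝ≥0∞}
    (hs : ∀ x, g (dl a x) = B * g x) (k : ℕ) :
    ∫⁻ x in sh a (k + 1), g x =
      (ENNReal.ofReal ((1 / 2 : ℝ) ^ (2 * ∑ i, a i)) * B) * ∫⁻ x in sh a k, g x := by
  obtain ⟨C, hC, hC1⟩ := dl_map a
  have h1 := setLIntegral_map (μ := (volume : Measure (Fin n → ℂ))) (sh_meas a (k + 1)) hg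
    (dl_measurable a)
  have h2 : dl a ⁻¹' sh a (k + 1) = sh a k := by
    ext x
    show dl a x ∈ lwU a (k + 1) \ lwU a (k + 1 + 1) ↔ x ∈ lwU a k \ lwU a (k + 1)
    rw [Set.mem_sdiff, Set.mem_sdiff, dl_mem, dl_mem]
  rw [h2, hC, Measure.restrict_smul, lintegral_smul_measure, smul_eq_mul] at h1
  simp only [hs] at h1
  rw [lintegral_const_mul _ hg] at h1
  rw [mul_assoc, ← h1, ← mul_assoc, hC1, one_mul]

theorem exists_sh {a : Fin n → ℕ} (ha : ∀ i, 0 < a i) {x : Fin n → ℂ} (hx : x ∈ lwU a 0)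
    (hx0 : x ≠ 0) : ∃ k, x ∈ sh a k := by
  obtain ⟨i, hi⟩ : ∃ i, x i ≠ 0 := by
    by_contra h
    push Not at h
    exact hx0 (funext h)
  have hex : ∃ k, x ∉ lwU a k := by
    obtain ⟨k, hk⟩ := exists_pow_lt_of_lt_one (norm_pos_iff.2 hi) (show (1 / 2 : ℝ) < 1 by norm_num)
    refine ⟨k, fun h => ?_⟩
    rw [lw_mem] at h
    have h1 := h i
    have h2 : (1 / 2 : ℝ) ^ (a i * k) ≤ (1 / 2 : ℝ) ^ k :=
      pow_le_pow_of_le_one (by norm_num) (by norm_num) (Nat.le_mul_of_pos_left k (ha i))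
    linarith
  classical
  have hk := Nat.find_spec hex
  have hk' := fun j => Nat.find_min hex (m := j)
  cases hc : Nat.find hex with
  | zero =>
    rw [hc] at hk
    exact absurd hx hk
  | succ k =>
    refine ⟨k, ?_, ?_⟩
    · have := hk' k (by omega)
      rwa [not_not] at this
    · rwa [hc] at hk

theorem lintegral_lw_lt_top (hn : 0 < n) {a : Fin n → ℕ} (ha : ∀ i, 0 < a i)
    {g : (Fin n → ℂ) → ℝ≥0∞} (hg : Measurable g) {α : ℝ} (hα : α < 2 * ((∑ i, a i : ℕ) : ℝ))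
    (hs : ∀ x, g (dl a x) = ENNReal.ofReal ((2 : ℝ) ^ α) * g x)
    (hA : ∫⁻ x in sh a 0, g x < ∞) : ∫⁻ x in lwU a 0, g x < ∞ := by
  have : Nonempty (Fin n) := ⟨⟨0, hn⟩⟩
  set q := ENNReal.ofReal ((1 / 2 : ℝ) ^ (2 * ∑ i, a i)) * ENNReal.ofReal ((2 : ℝ) ^ α) with hq
  have hq1 : q < 1 := by
    rw [hq, ← ENNReal.ofReal_mul (by positivity), ← ENNReal.ofReal_one]
    apply (ENNReal.ofReal_lt_ofReal_iff one_pos).2
    rw [one_div, inv_pow, ← Real.rpow_natCast, ← Real.rpow_neg (by norm_num),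
      ← Real.rpow_add (by norm_num)]
    apply Real.rpow_lt_one_of_one_lt_of_neg (by norm_num)
    push_cast at hα ⊢
    linarith
  have h1 : ∀ k, ∫⁻ x in sh a k, g x = q ^ k * ∫⁻ x in sh a 0, g x := by
    intro k
    induction k with
    | zero => rw [pow_zero, one_mul]
    | succ k ih => rw [lintegral_sh_succ hg hs k, ← hq, ih, pow_succ', mul_assoc q]
  have h2 : lwU a 0 ⊆ {0} ∪ ⋃ k, sh a k := by
    intro x hx
    by_cases hx0 : x = 0
    · exact Or.inl hx0
    · exact Or.inr (Set.mem_iUnion.2 (exists_sh ha hx hx0))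
  calc ∫⁻ x in lwU a 0, g x ≤ ∫⁻ x in ({0} ∪ ⋃ k, sh a k), g x := lintegral_mono_set h2
    _ ≤ (∫⁻ x in ({0} : Set (Fin n → ℂ)), g x) + ∫⁻ x in ⋃ k, sh a k, g x :=
        lintegral_union_le _ _ _
    _ ≤ 0 + ∑' k, ∫⁻ x in sh a k, g x := by
        apply add_le_add
        · have : (volume : Measure (Fin n → ℂ)) ({0} : Set (Fin n → ℂ)) = 0 := measure_singleton 0
          rw [setLIntegral_measure_zero _ _ this]
        · exact lintegral_iUnion_le _ _
    _ = (∑' k, q ^ k) * ∫⁻ x in sh a 0, g x := by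
        rw [zero_add, ← ENNReal.tsum_mul_right]
        exact tsum_congr h1
    _ < ∞ := by
        rw [ENNReal.tsum_geometric]
        refine ENNReal.mul_lt_top ?_ hA
        rw [ENNReal.inv_lt_top]
        exact tsub_pos_of_lt hq1

theorem wt_eq_weight (a : Fin n → ℕ) (v : Fin n →₀ ℕ) :
    Finsupp.weight a v = ∑ i, a i * v i := by
  rw [Finsupp.weight_apply, Finsupp.sum_fintype _ _ (by simp)]
  exact Finset.sum_congr rfl fun i _ => by rw [smul_eq_mul, mul_comm]

theorem eval_dl {f : MvPolynomial (Fin n) ℂ} {a : Fin n → ℕ} {D : ℕ}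
    (H : f.IsWeightedHomogeneous a D) (x : Fin n → ℂ) :
    eval (dl a x) f = ((2 : ℂ)⁻¹) ^ D * eval x f := by
  rw [eval_eq', eval_eq', Finset.mul_sum]
  refine Finset.sum_congr rfl fun v hv => ?_
  have h1 : ∑ i, a i * v i = D := by
    rw [← wt_eq_weight]
    exact H (mem_support_iff.1 hv)
  have h2 : ∀ i, dl a x i = ((2 : ℂ)⁻¹) ^ a i * x i := by
    intro i
    rw [dl_apply, Complex.real_smul]
    push_cast
    rw [one_div]
  simp only [h2, mul_pow, Finset.prod_mul_distrib, ← pow_mul]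
  rw [Finset.prod_pow_eq_pow_sum, h1]
  ring

/-- **Integrability from the local integrability** at the points `p ≠ 0`. -/
theorem integrable_of_local {f : MvPolynomial (Fin n) ℂ} {a : Fin n → ℕ} (ha : ∀ i, 0 < a i)
    {D : ℕ} (hD : 0 < D) (H : f.IsWeightedHomogeneous a D) {c : ℝ} (hc0 : 0 < c)
    (hc : c < ((∑ i, a i : ℕ) : ℝ) / D)
    (hloc : ∀ p : Fin n → ℂ, p ≠ 0 → ∃ r : ℝ, 0 < r ∧
      ∫⁻ x in ball (0 : Fin n → ℂ) r, ‖eval x (translate p f)‖ₑ ^ (-(2 * c)) < ∞) :
    IntegrableOn (fun x : Fin n → ℂ => ‖eval x f‖ ^ (-(2 * c))) (ball 0 1) := by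
  have hD' : (0 : ℝ) < D := by exact_mod_cast hD
  have hn : 0 < n := by
    rcases Nat.eq_zero_or_pos n with h | h
    · subst h
      simp at hc
      linarith
    · exact h
  have hcd : c * D < ((∑ i, a i : ℕ) : ℝ) := by rwa [lt_div_iff₀ hD'] at hc
  have hmeas : Measurable (fun x : Fin n → ℂ => ‖eval x f‖ₑ ^ (-(2 * c))) :=
    (MPb07157Q.continuous_evalC f).measurable.enorm.pow_const _
  have hsub : ball (0 : Fin n → ℂ) 1 ⊆ lwU a 0 := by
    intro x hx
    rw [lw_mem]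
    intro i
    rw [mul_zero, pow_zero]
    rw [mem_ball_zero_iff] at hx
    exact (norm_le_pi_norm x i).trans_lt hx
  have hlt : ∫⁻ x in lwU a 0, ‖eval x f‖ₑ ^ (-(2 * c)) < ∞ := by
    apply lintegral_lw_lt_top hn ha hmeas (α := 2 * (c * D))
    · linarith
    · intro x
      rw [eval_dl H, enorm_mul, ENNReal.mul_rpow_of_ne_top enorm_ne_top enorm_ne_top]
      congr 1
      have h2 : ‖((2 : ℂ)⁻¹) ^ D‖ₑ = ENNReal.ofReal ((2 : ℝ) ^ (-(D : ℝ))) := by
        rw [← ofReal_norm, norm_pow, norm_inv, Complex.norm_ofNat, Real.rpow_neg (by norm_num),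
          Real.rpow_natCast, inv_pow]
      rw [h2, ENNReal.ofReal_rpow_of_pos (by positivity), ← Real.rpow_mul (by norm_num)]
      congr 2
      ring
    · have hopen : IsOpen (lwU a 1) := isOpen_set_pi Set.finite_univ fun _ _ => isOpen_ball
      have hK : IsCompact (closedBall (0 : Fin n → ℂ) 1 \ lwU a 1) :=
        (isCompact_closedBall _ _).diff hopen
      refine lt_of_le_of_lt (lintegral_mono_set ?_) (integrable_compact (f := f) (c := c) hK ?_)
      · rintro x ⟨h1, h2⟩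
        refine ⟨?_, h2⟩
        rw [mem_closedBall_zero_iff, pi_norm_le_iff_of_nonneg zero_le_one]
        intro i
        have h3 := (lw_mem.1 h1) i
        rw [mul_zero, pow_zero] at h3
        exact h3.le
      · intro p hp
        have hp0 : p ≠ 0 := by
          rintro rfl
          apply hp.2
          rw [lw_mem]
          intro i
          rw [Pi.zero_apply, norm_zero]
          positivity
        exact hloc p hp0
  refine ⟨?_, ?_⟩
  · apply Measurable.aestronglyMeasurable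
    exact (MPb07157Q.continuous_evalC f).norm.measurable.pow_const _
  · refine lt_of_le_of_lt ((lintegral_mono fun x => ?_).trans (lintegral_mono_set hsub)) hlt
    rw [Real.enorm_of_nonneg (Real.rpow_nonneg (norm_nonneg _) _)]
    by_cases h0 : eval x f = 0
    · rw [h0, enorm_zero, ENNReal.zero_rpow_of_neg (by linarith)]
      exact le_top
    · rw [← ofReal_norm, ENNReal.ofReal_rpow_of_pos (norm_pos_iff.2 h0)]

end LCW

/-- The condition `WRoot` from the integrability of `|f|^(-2e)`, `∑ a_i/D ≤ e ≤ 1`, at the critical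
zeros `p ≠ 0`. -/
theorem WRoot.of_integrable {n : ℕ} {f : MvPolynomial (Fin n) ℂ} (hf : f ≠ 0) {a : Fin n → ℕ}
    (ha : ∀ i, 0 < a i) {D : ℕ} (hD : 0 < D) (H : f.IsWeightedHomogeneous a D) {e : ℝ}
    (he : ((∑ i, a i : ℕ) : ℝ) / D ≤ e) (he1 : e ≤ 1)
    (h : ∀ p ≠ 0, eval p f = 0 → (∀ i, eval p (pderiv i f) = 0) → ∃ r : ℝ, 0 < r ∧
      IntegrableOn (fun x : Fin n → ℂ => ‖eval x f‖ ^ (-(2 * e))) (ball p r)) :
    WRoot f a D := by
  refine Or.inr (Or.inl ⟨1, one_pos, fun c hc0 hc =>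
    LCW.integrable_of_local ha hD H hc0 hc fun p hp0 => ?_⟩)
  have hce : c < e := hc.trans_le he
  by_cases h0 : eval p f = 0
  swap
  · refine local_integrable (v := 0) ?_ hc0 (by simp)
    rw [← constantCoeff_eq, Str.constantCoeff_translate]
    exact h0
  by_cases h1 : ∀ i, eval p (pderiv i f) = 0
  swap
  · push Not at h1
    obtain ⟨i, hi⟩ := h1
    refine local_integrable (v := Finsupp.single i 1) ?_ hc0 ?_
    · rw [Str.coeff_single_eq, pderiv_translate, Str.constantCoeff_translate]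
      exact hi
    · rw [Finsupp.degree_single]
      push_cast
      linarith
  obtain ⟨r, hr, hint⟩ := h p hp0 h0 h1
  exact ⟨r, hr, LCR.lintegral_lt_top hf hint hc0 hce.le⟩

open LT2 in
/-- The condition `WRoot` from `WRankRoot`. -/
theorem WRoot.of_wrankRoot {n : ℕ} {f : MvPolynomial (Fin n) ℂ} (hf : f ≠ 0) {a : Fin n → ℕ}
    (ha : ∀ i, 0 < a i) {D : ℕ} (hD : 0 < D) (H : f.IsWeightedHomogeneous a D)
    (h : WRankRoot f a D) : WRoot f a D := by
  obtain ⟨hnd, h⟩ := h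
  have hdR : (0 : ℝ) < D := by exact_mod_cast hD
  refine Or.inr (Or.inl ⟨1, one_pos, fun c hc0 hc =>
    LCW.integrable_of_local ha hD H hc0 hc fun p hp0 => ?_⟩)
  have hmul : ∀ v : Fin n →₀ ℕ, (∑ i, a i) * v.degree ≤ D → c * v.degree < 1 := by
    intro v hv
    have hcd : c * D < ((∑ i, a i : ℕ) : ℝ) := by rwa [lt_div_iff₀ hdR] at hc
    have h1 : ((∑ i, a i : ℕ) : ℝ) * v.degree ≤ D := by exact_mod_cast hv
    have h2 : c * (((∑ i, a i : ℕ) : ℝ) * v.degree) ≤ c * D := mul_le_mul_of_nonneg_left h1 hc0.le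
    have hn' : (0 : ℝ) ≤ ((∑ i, a i : ℕ) : ℝ) := Nat.cast_nonneg _
    by_contra hcon
    rw [not_lt] at hcon
    nlinarith
  by_cases h0 : eval p f = 0
  swap
  · refine local_integrable (v := 0) ?_ hc0 (hmul 0 (by simp))
    rw [← constantCoeff_eq, Str.constantCoeff_translate]
    exact h0
  by_cases h1 : ∀ i, eval p (pderiv i f) = 0
  swap
  · push Not at h1
    obtain ⟨i, hi⟩ := h1
    refine local_integrable (v := Finsupp.single i 1) ?_ hc0 (hmul _ ?_)
    · rw [Str.coeff_single_eq, pderiv_translate, Str.constantCoeff_translate]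
      exact hi
    · rw [Finsupp.degree_single, mul_one]
      exact hnd
  rcases h p hp0 h0 h1 with h2 | ⟨v, hv, hv'⟩ | ⟨e, r, he, hr, hint⟩
  rotate_left
  · exact local_integrable hv' hc0 (hmul v hv)
  · exact ⟨r, hr, LCR.lintegral_lt_top hf hint hc0 (hc.le.trans he)⟩
  obtain ⟨i, i', j, j', hmn⟩ := exists_minor_two h2
  have hc1 : c < 1 := by
    refine hc.trans_le ?_
    rw [div_le_one hdR]
    exact_mod_cast hnd
  have hev : ∀ q : MvPolynomial (Fin n) ℂ, eval 0 (translate p q) = eval p q := by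
    intro q
    rw [eval_translate, zero_add]
  refine local_integrable2 (i := j) (i' := j') (j := i) (j' := i') (fun l => ?_) ?_ hc0 hc1
  · rw [pderiv_translate, hev]
    exact h1 l
  · simp only [pderiv_translate, hev]
    intro hz
    apply hmn
    show eval p (pderiv i (pderiv j f)) * eval p (pderiv i' (pderiv j' f)) -
      eval p (pderiv i (pderiv j' f)) * eval p (pderiv i' (pderiv j f)) = 0
    linear_combination hz

end MPb07157
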